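import Mathlib
import Pool.Agent.W484.AA.Main

/-!
# Double flips in the Galois groups of Weil polynomials: the pieces (project BF)

A finite group `G` acts on the finite set `X` (the roots of a Weil polynomial), which has an
involution `bar` (`x ↦ q / x`) without fixed points commuting with `G`. The pairs `{x, bar x}` are
permuted by `G` (transitively), and there is an element `τ` which permutes `r` pairs cyclically and
without signs and fixes all the other elements of `X`; here `r` is a prime number greater than half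
of the number of pairs.
-/

set_option autoImplicit false

namespace Pool.Agent.J4H9.BF

open Polynomial Pool.Agent.H925R2 Pool.Agent.W484.AA

/-- The set `X` with its involution; `G` is transitive up to the involution. -/
structure Sgn (G X : Type) [Group G] [MulAction G X] (bar : X → X) : Prop where
  bb : ∀ x, bar (bar x) = x
  ne : ∀ x, bar x ≠ x
  comm : ∀ (g : G) (x : X), bar (g • x) = g • bar x
  trans : ∀ x y : X, ∃ g : G, g • x = y ∨ g • x = bar y

/-- A pure cycle of length `r` through `x₀`: `τ` permutes the pairs of `x₀, τ x₀, …, τ^(r-1) x₀`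
cyclically and fixes all the other elements of `X`. -/
structure PureCyc (G X : Type) [Group G] [MulAction G X] (bar : X → X) (r : ℕ) (τ : G) (x₀ : X) :
    Prop where
  per : τ ^ r • x₀ = x₀
  inj : ∀ k < r, ∀ l < r, τ ^ k • x₀ = τ ^ l • x₀ → k = l
  ne : ∀ k l : ℕ, τ ^ k • x₀ ≠ bar (τ ^ l • x₀)
  fix : ∀ x : X, (∃ k : ℕ, x = τ ^ k • x₀ ∨ x = bar (τ ^ k • x₀)) ∨ τ • x = x

/-- The elements `a i` lie in different pairs. -/
def Dist {X : Type} (bar : X → X) {m : ℕ} (a : Fin m → X) : Prop :=
  ∀ i j, i ≠ j → a i ≠ a j ∧ a i ≠ bar (a j)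

/-- `G` is `m`-transitive on the pairs. -/
def MT (G X : Type) [Group G] [MulAction G X] (bar : X → X) (m : ℕ) : Prop :=
  ∀ a b : Fin m → X, Dist bar a → Dist bar b → ∃ σ : G, ∀ i, σ • a i = b i ∨ σ • a i = bar (b i)

/-- (JOR) Jordan: `G` is `(g - r)`-transitive on the `g` pairs (Mathlib:
`MulAction.IsPreprimitive.isMultiplyPreprimitive`; the action on the pairs is primitive as it is
transitive and contains a cycle of prime length greater than half of the degree; the fixing
subgroup of the other pairs is primitive on the `r` pairs as `r` is prime). -/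
def S_JOR : Prop :=
  ∀ (G X : Type) [Group G] [Finite G] [MulAction G X] [Finite X] (bar : X → X) (g r : ℕ),
    Sgn G X bar → Nat.card X = 2 * g → r.Prime → g < 2 * r → r + 3 ≤ g →
    ∀ (τ : G) (x₀ : X), PureCyc G X bar r τ x₀ → ∀ m : ℕ, m ≤ g - r → MT G X bar m

/-- (TRI) The theorem of Jordan on cycles of prime length (Frattini argument for the Sylow subgroup
generated by `τ` in the subgroup fixing the elements of `X` outside the `r` pairs): there is a pure
cycle of length three. -/
def S_TRI : Prop :=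
  ∀ (G X : Type) [Group G] [Finite G] [MulAction G X] [Finite X] (bar : X → X) (g r : ℕ),
    Sgn G X bar → Nat.card X = 2 * g → r.Prime → 5 ≤ r → g < 2 * r → r + 3 ≤ g →
    ∀ (τ : G) (x₀ : X), PureCyc G X bar r τ x₀ → MT G X bar (g - r) →
      ∃ (z : G) (x₁ : X), PureCyc G X bar 3 z x₁

/-- `G` contains all double flips. -/
def DoubleFlips (G X : Type) [Group G] [MulAction G X] (bar : X → X) : Prop :=
  ∀ x y : X, y ≠ x → y ≠ bar x → ∃ ν : G, ν • x = bar x ∧ ν • y = bar y ∧
    ∀ z, z ≠ x → z ≠ bar x → z ≠ y → z ≠ bar y → ν • z = z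

/-- A set `R` of representatives of the pairs with `σ R = R` or `σ R = bar R` for all `σ`. -/
def Labelling (G X : Type) [Group G] [MulAction G X] (bar : X → X) : Prop :=
  ∃ R : Set X, (∀ x, x ∈ R ↔ bar x ∉ R) ∧ ∀ σ : G, (∀ x ∈ R, σ • x ∈ R) ∨ (∀ x ∈ R, σ • x ∉ R)

/-- (DIC) If `G` is `5`-transitive on the pairs (at least six) and contains a pure cycle of length
three, it contains all double flips or has a labelling. -/
def S_DIC : Prop :=
  ∀ (G X : Type) [Group G] [Finite G] [MulAction G X] [Finite X] (bar : X → X) (g : ℕ),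
    Sgn G X bar → Nat.card X = 2 * g → 6 ≤ g → (∀ m ≤ 5, MT G X bar m) →
    (∃ (z : G) (x₁ : X), PureCyc G X bar 3 z x₁) →
      DoubleFlips G X bar ∨ Labelling G X bar

/-- (SUM) The inequality: if all sums `∑ w (ν x k)` are at most `B`, the `x k` being elements no
two of which (and none of which) are conjugate, then `(g - 2) ∑ |w (x k)| ≤ g B`. -/
def S_SUM : Prop :=
  ∀ (G X : Type) [Group G] [Finite G] [MulAction G X] [Finite X] (bar : X → X) (g : ℕ),
    Sgn G X bar → Nat.card X = 2 * g → 2 ≤ g → DoubleFlips G X bar →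
    ∀ (w : X → ℝ), (∀ x, w (bar x) = - w x) → ∀ (n : ℕ) (x : Fin n → X),
      (∀ k l, x k ≠ bar (x l)) → ∀ B : ℝ, (∀ ν : G, ∑ k, w (ν • x k) ≤ B) →
        ((g : ℝ) - 2) * ∑ k, |w (x k)| ≤ g * B

/-- (DEV) The sum of the absolute values of the deviations (compare
`Pool.Agent.W484.AA.sum_dev_ge`, the case `w = 0`). -/
def S_DEV : Prop :=
  ∀ (p : ℕ) [Fact p.Prime] (a g r w : ℕ) (f : ℤ[X]) (M : Multiset (PadicAlgCl p)),
    f.map (algebraMap ℤ (PadicAlgCl p)) = (M.map (fun a => X - C a)).prod →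
    (∀ y ∈ M, ‖y‖ ≤ 1) → M.card = 2 * g → r ≤ 2 * g →
    ¬ (p : ℤ) ^ (w + 1) ∣ f.coeff (2 * g - r) → f.coeff 0 = ((p ^ a : ℕ) : ℤ) ^ g →
    2 * ((r : ℝ) * Real.log ((p : ℝ) ^ a) - 2 * w * Real.log p) ≤
      (M.map (fun y => |dev p ((p : ℚ) ^ a) y|)).sum

/-- No relations of odd length between roots of `f` and integral numbers of weight one. -/
def OddRel (q : ℕ) (f : ℤ[X]) : Prop :=
  ∀ s : ℕ, 0 < s → ∀ ρ : ℂ, IsIntegral ℤ ρ → ‖ρ‖ ^ 2 = (q : ℝ) ^ s → ∀ m N : ℕ, 0 < N →
    ∀ z : Fin (2 * m + 3) → ℂ, (∀ k, aeval (z k) f = 0) →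
      ((∏ k, z k) ^ s * ρ) ^ N = (((q : ℂ) ^ s) ^ (m + 2)) ^ N →
      (∀ k l, k ≠ l → z k * z l ≠ q) → False

/-- (FORM) The formula of Beilinson and Bloch from the absence of relations (compare
`Pool.Agent.W484.AA.formula_of_good`, where `odd_relation` gives `OddRel`). -/
def S_FORM : Prop :=
  ∀ q : ℕ, IsPrimePow q → ∀ f : ℤ[X], (∀ z : ℂ, aeval z f = 0 → ‖z‖ ^ 2 = q) → OddRel q f →
    BeilinsonBlochFormula q (fun _ : Unit => f)

end Pool.Agent.J4H9.BF
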