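import Mathlib
import Pool.Agent.J4H9.BF.Stm

/-!
# Double flips for families of Weil polynomials: the pieces (project BF, second part)
-/

set_option autoImplicit false

namespace Pool.Agent.J4H9.BF

open Polynomial

/-- (N3) If the normal subgroup `K` contains a pure cycle `τ` of length `r` and `G` a pure cycle of
length three, then `K` contains a pure cycle of length three: if (after conjugation) `z` maps the
elements `a → b → c → a`, `a` in the cycle of `τ`, `b` and `c` fixed by `τ`, then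
`τ z τ⁻¹ z⁻¹ : a → τ a → b → a` is a pure cycle of length three. -/
def S_N3 : Prop :=
  ∀ (G X : Type) [Group G] [Finite G] [MulAction G X] [Finite X] (bar : X → X) (g r : ℕ),
    Sgn G X bar → Nat.card X = 2 * g → r.Prime → 5 ≤ r → g < 2 * r → r + 5 ≤ g →
    (∀ m ≤ 5, MT G X bar m) → (∃ (z : G) (x₁ : X), PureCyc G X bar 3 z x₁) →
    ∀ (K : Subgroup G), K.Normal → ∀ (τ : G) (x₀ : X), τ ∈ K → PureCyc G X bar r τ x₀ →
      ∃ (z : G) (x₁ : X), z ∈ K ∧ PureCyc G X bar 3 z x₁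

/-- (CMT) The intersection of two normal subgroups which contain pure cycles of length three
contains one: the commutator of `c → a → b → c` and `c → d → e → c`. -/
def S_CMT : Prop :=
  ∀ (G X : Type) [Group G] [Finite G] [MulAction G X] [Finite X] (bar : X → X) (g : ℕ),
    Sgn G X bar → Nat.card X = 2 * g → 6 ≤ g → (∀ m ≤ 5, MT G X bar m) →
    ∀ (K K' : Subgroup G), K.Normal → K'.Normal →
    (∃ (z : G) (x₁ : X), z ∈ K ∧ PureCyc G X bar 3 z x₁) →
    (∃ (z : G) (x₁ : X), z ∈ K' ∧ PureCyc G X bar 3 z x₁) →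
      ∃ (z : G) (x₁ : X), (z ∈ K ∧ z ∈ K') ∧ PureCyc G X bar 3 z x₁

/-- (DCN) The relative form of (DIC), for a normal subgroup `K`: all the flips in the proof are
products of conjugates of the given pure cycle of length three. -/
def S_DCN : Prop :=
  ∀ (G X : Type) [Group G] [Finite G] [MulAction G X] [Finite X] (bar : X → X) (g : ℕ),
    Sgn G X bar → Nat.card X = 2 * g → 6 ≤ g → (∀ m ≤ 5, MT G X bar m) →
    ∀ (K : Subgroup G), K.Normal → (∃ (z : G) (x₁ : X), z ∈ K ∧ PureCyc G X bar 3 z x₁) →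
      (∀ x y : X, y ≠ x → y ≠ bar x → ∃ ν ∈ K, ν • x = bar x ∧ ν • y = bar y ∧
        ∀ z, z ≠ x → z ≠ bar x → z ≠ y → z ≠ bar y → ν • z = z) ∨ Labelling G X bar

/-- (SMF) The inequality for several blocks (the classes of `β`), each with `2 g` elements: there
are double flips inside of each block which fix all the other elements of `X`. (In each block omit
the pair with the smallest contribution.) -/
def S_SMF : Prop :=
  ∀ (G X I : Type) [Group G] [MulAction G X] [Finite X] (bar : X → X) (β : X → I) (g : ℕ),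
    (∀ x, bar (bar x) = x) → (∀ x, bar x ≠ x) → (∀ (s : G) (x : X), bar (s • x) = s • bar x) →
    (∀ x, β (bar x) = β x) → (∀ x, Nat.card {y // β y = β x} = 2 * g) → 2 ≤ g →
    (∀ x y : X, β x = β y → y ≠ x → y ≠ bar x → ∃ ν : G, ν • x = bar x ∧ ν • y = bar y ∧
      ∀ z, z ≠ x → z ≠ bar x → z ≠ y → z ≠ bar y → ν • z = z) →
    ∀ (w : X → ℝ), (∀ x, w (bar x) = - w x) → ∀ (n : ℕ) (x : Fin n → X),
      (∀ k l, x k ≠ bar (x l)) → ∀ B : ℝ, (∀ ν : G, ∑ k, w (ν • x k) ≤ B) →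
        ((g : ℝ) - 2) * ∑ k, |w (x k)| ≤ g * B

/-- (FORMF) The formula of Beilinson and Bloch for families from the absence of relations. -/
def OddRelF {I : Type} (q : ℕ) (f : I → ℤ[X]) : Prop :=
  ∀ s : ℕ, 0 < s → ∀ ρ : ℂ, IsIntegral ℤ ρ → ‖ρ‖ ^ 2 = (q : ℝ) ^ s → ∀ m N : ℕ, 0 < N →
    ∀ z : Fin (2 * m + 3) → ℂ, (∀ k, ∃ i, Polynomial.aeval (z k) (f i) = 0) →
      ((∏ k, z k) ^ s * ρ) ^ N = (((q : ℂ) ^ s) ^ (m + 2)) ^ N →
      (∀ k l, k ≠ l → z k * z l ≠ q) → False

def S_FORMF : Prop :=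
  ∀ q : ℕ, IsPrimePow q → ∀ (I : Type) (f : I → ℤ[X]),
    (∀ i, ∀ z : ℂ, Polynomial.aeval z (f i) = 0 → ‖z‖ ^ 2 = q) → OddRelF q f →
    Pool.Agent.W484.AA.BeilinsonBlochFormula q f

end Pool.Agent.J4H9.BF
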