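import Mathlib
import Pool.Agent.J4H9.BF.Stm2

/-!
# The sum of the three smallest slopes: the pieces (project BF, third part)
-/

set_option autoImplicit false

namespace Pool.Agent.J4H9.BF

open Polynomial Pool.Agent.H925R2 Pool.Agent.W484.AA

/-- (K3) The normal subgroup `K` is `3`-transitive on `X`, with signs: move the pairs of `a 0`,
`a 1`, `a 2` one after the other to those of `b 0`, `b 1`, `b 2` by conjugates of the given pure
cycle of length three, and correct the signs by double flips of `b i` and a fourth pair. -/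
def S_K3 : Prop :=
  ∀ (G X : Type) [Group G] [Finite G] [MulAction G X] [Finite X] (bar : X → X) (g : ℕ),
    Sgn G X bar → Nat.card X = 2 * g → 6 ≤ g → (∀ m ≤ 5, MT G X bar m) →
    ∀ (K : Subgroup G), K.Normal → (∃ (z : G) (x₁ : X), z ∈ K ∧ PureCyc G X bar 3 z x₁) →
      (∀ x y : X, y ≠ x → y ≠ bar x → ∃ ν ∈ K, ν • x = bar x ∧ ν • y = bar y ∧
        ∀ z, z ≠ x → z ≠ bar x → z ≠ y → z ≠ bar y → ν • z = z) →
      ∀ a b : Fin 3 → X, Dist bar a → Dist bar b → ∃ σ ∈ K, ∀ i, σ • a i = b i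

/-- (AVG) The mean of `∑ w (ν η x k)` over the elements `η` of `G` which fix `x 0`, `x 1`, `x 2`:
the contribution of an `x k` different from these three is zero, as there is a double flip in the
stabilizer which exchanges `x k` and `bar (x k)` (the second pair of the flip is in the block of
`x k` and does not contain `x 0`, `x 1`, `x 2`). -/
def S_AVG : Prop :=
  ∀ (G X I : Type) [Group G] [Finite G] [MulAction G X] [Finite X] (bar : X → X) (β : X → I)
    (g : ℕ),
    (∀ x, bar (bar x) = x) → (∀ x, bar x ≠ x) → (∀ (s : G) (x : X), bar (s • x) = s • bar x) →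
    (∀ x, β (bar x) = β x) → (∀ x, Nat.card {y // β y = β x} = 2 * g) → 5 ≤ g →
    (∀ x y : X, β x = β y → y ≠ x → y ≠ bar x → ∃ ν : G, ν • x = bar x ∧ ν • y = bar y ∧
      ∀ z, z ≠ x → z ≠ bar x → z ≠ y → z ≠ bar y → ν • z = z) →
    ∀ (w : X → ℝ), (∀ x, w (bar x) = - w x) → ∀ (n : ℕ) (x : Fin (n + 3) → X),
      (∀ k l, x k ≠ bar (x l)) → ∀ B : ℝ, (∀ ν : G, ∑ k, w (ν • x k) ≤ B) →
      ∀ ν : G, 0 ≤ w (ν • x 0) → 0 ≤ w (ν • x 1) → 0 ≤ w (ν • x 2) →
        w (ν • x 0) + w (ν • x 1) + w (ν • x 2) ≤ B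

/-- The Newton polygon of the Weil polynomial `f` of degree `2 g` (for the valuation with the value
one at `p ^ a`) has height less than one over `3`: it contains or is below a segment over an
interval `[r, s]` with `r < 3 ≤ s`. This means that the sum of the three smallest slopes is less
than one. -/
def Three (p a g : ℕ) (f : ℤ[X]) : Prop :=
  ∃ r s u v : ℕ, r < 3 ∧ 3 ≤ s ∧ s ≤ 2 * g ∧ ¬ (p : ℤ) ^ (u + 1) ∣ f.coeff (2 * g - r) ∧
    ¬ (p : ℤ) ^ (v + 1) ∣ f.coeff (2 * g - s) ∧ (s - 3) * u + (3 - r) * v < (s - r) * a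

/-- (TOP) The three largest absolute values. (The absolute value of the coefficient of index
`2 g - r` is at most the product of the `r` largest absolute values of the roots; convexity.) -/
def S_TOP : Prop :=
  ∀ (p : ℕ) [Fact p.Prime] (a g : ℕ) (f : ℤ[X]) (M : Multiset (PadicAlgCl p)),
    f.map (algebraMap ℤ (PadicAlgCl p)) = (M.map (fun a => X - C a)).prod →
    (∀ y ∈ M, y ≠ 0 ∧ ‖y‖ ≤ 1) → M.card = 2 * g → Three p a g f →
      ∃ T ≤ M, T.card = 3 ∧
        Real.log ((p : ℝ) ^ a) < (T.map (fun y => dev p ((p : ℚ) ^ a) y)).sum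

end Pool.Agent.J4H9.BF
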