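import Mathlib
import Pool.Agent.J4H9.NPair
import Pool.Agent.J4H9.Engine

/-!
# The choice of the parameters for polynomials with divisible coefficients
-/

set_option autoImplicit false

namespace Pool.Agent.J4H9.BF

open Polynomial Filter Pool.Agent.W521.Sieve Pool.Agent.J4H9.Fr Pool.Agent.J4H9.Ch
  Pool.Agent.J4H9.Pair Pool.Agent.J4H9.Engine Pool.Agent.J4H9.NScale

open Classical in
/-- **The exceptional pairs in a union of chains.** -/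
theorem engine5 {κ μ δ ε : ℝ} (hκ : 1 / 2 ≤ κ) (hκ1 : κ < 1) (hμ0 : 0 < μ) (hμ1 : μ ≤ 1 / 2)
    (hδ : 0 ≤ δ) (hε : 0 < ε) (hε1 : δ / 2 + ε < μ * (1 - κ) / 2) :
    ∀ᶠ g : ℕ in atTop, ∃ r : ℕ, r.Prime ∧ 3 ≤ r ∧ κ * g < r ∧ g < 2 * r ∧ r + 2 ≤ g ∧
    r + 5 ≤ g ∧
    ∀ q : ℕ, IsPrimePow q → ∃ P : Finset Pr, (∀ l ∈ P, 8 ≤ (l : ℕ)) ∧ (∀ l ∈ P, ¬ (l : ℕ) ∣ q) ∧
      ∀ d : ℕ → ℤ, (∀ k, d k ≠ 0) → d g = 1 → (∀ k, ∀ l : ℕ, l.Prime → (l : ℤ) ∣ d k → l ∣ q) →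
      ∀ (Λ : Type) (Λ₀ : Finset Λ) (M : Λ → ℕ → ℕ) (𝒯 : Λ → ℕ → Finset ℤ[X]),
        (∀ i ∈ Λ₀, Chain (M i) (r + 2) (𝒯 i)) →
        (∀ i ∈ Λ₀, ∀ f ∈ 𝒯 i (r + 2), f.Monic ∧ f.natDegree + (r + 2) = g) →
        (∀ i ∈ Λ₀, ∀ k < r + 2, (q : ℝ) ^ (μ * (g - k) - 1) ≤ (q : ℝ) ^ (δ * g) * M i k) →
        ∀ A : Finset ℤ[X], (∀ h ∈ A, ∃ i ∈ Λ₀, h ∈ 𝒯 i 0) →
        ((A.filter (fun h => ¬ ∃ l ∈ P, PatE q r (sc d h) (l : ℕ))).card : ℝ) ≤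
          1 / 2 * (q : ℝ) ^ (-((μ * (1 - κ) / 2 - δ / 2 - ε) * g)) * ((uni Λ₀ 𝒯).card : ℝ) ∧
        (((A ×ˢ A).filter (fun x => ¬ HasPair q r P (sc d x.1, sc d x.2))).card : ℝ) ≤
          1 / 2 * (q : ℝ) ^ (-((μ * (1 - κ) / 2 - δ / 2 - ε) * g)) * ((uni Λ₀ 𝒯).card : ℝ) *
            (A.card : ℝ) := by
  have hμκ : μ * (1 - κ) / 2 ≤ 1 / 8 := by nlinarith
  have hμ : 0 < μ * (1 - κ) / 2 - δ / 2 - ε / 2 := by linarith
  have h4ev : ∀ᶠ g : ℕ in atTop, 8 ≤ ε * (g : ℝ) := by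
    have h5 : Tendsto (fun g : ℕ => ε * (g : ℝ)) atTop atTop :=
      tendsto_natCast_atTop_atTop.const_mul_atTop hε
    exact h5.eventually_ge_atTop 8
  filter_upwards [exists_r hκ hκ1 hε, exists_P hμ (by linarith), eventually_ge_atTop 20,
    poly_le (show 0 < ε / 4 by linarith) (2 * 82944) 5, h4ev] with g h1 h2 h3 hpoly h4g
  obtain ⟨r, hr, hgr, hr13⟩ := h1
  have hgR : (20 : ℝ) ≤ g := by exact_mod_cast h3
  have hκε : κ + 4 * ε < 1 := by nlinarith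
  have hrg : r + 2 ≤ g := by
    have h5 : ((r + 2 : ℕ) : ℝ) ≤ g := by
      push_cast
      nlinarith
    exact_mod_cast h5
  have hgr2 : g < 2 * r := by
    have h5 : (g : ℝ) < ((2 * r : ℕ) : ℝ) := by
      push_cast
      nlinarith
    exact_mod_cast h5
  have hrg5 : r + 5 ≤ g := by
    have h5 : ((r + 5 : ℕ) : ℝ) ≤ g := by
      push_cast
      nlinarith
    exact_mod_cast h5
  refine ⟨r, hr, by omega, hgr, hgr2, hrg, hrg5, ?_⟩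
  intro q hq
  obtain ⟨P, hP, hPL, hP8, hPq, hPc⟩ := h2 q hq
  refine ⟨P, hP8, hPq, ?_⟩
  intro d hd0 hdg hdq Λ Λ₀ M 𝒯 hc htop hM A hA
  have hq2 : 2 ≤ q := hq.two_le
  have hqR : (2 : ℝ) ≤ q := by exact_mod_cast hq2
  have hq0 : (0 : ℝ) < q := by linarith
  have hq1 : (1 : ℝ) ≤ q := by linarith
  set F : ℕ := ⌊(q : ℝ) ^ ((μ * (1 - κ) / 2 - δ / 2 - ε / 2) * g)⌋₊ with hF
  have hF1 : 1 ≤ F := by
    obtain ⟨l, hl⟩ := hP
    have := hPL l hl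
    have := hP8 l hl
    omega
  have hFR : (F : ℝ) ^ 2 ≤ (q : ℝ) ^ ((μ * (1 - κ) - δ - ε) * g) := by
    have h5 : (F : ℝ) ≤ (q : ℝ) ^ ((μ * (1 - κ) / 2 - δ / 2 - ε / 2) * g) :=
      Nat.floor_le (by positivity)
    calc (F : ℝ) ^ 2 ≤ ((q : ℝ) ^ ((μ * (1 - κ) / 2 - δ / 2 - ε / 2) * g)) ^ 2 :=
          pow_le_pow_left₀ (Nat.cast_nonneg _) h5 2
      _ = _ := by
          rw [← Real.rpow_natCast, ← Real.rpow_mul hq0.le]
          congr 1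
          push_cast
          ring
  have hpoly2 : (2 * 82944) * (g : ℝ) ^ 5 ≤ (q : ℝ) ^ (ε * g / 4) := by
    refine hpoly.trans ?_
    have h9 : ε / 4 * (g : ℝ) = ε * g / 4 := by ring
    rw [h9]
    exact Real.rpow_le_rpow (by norm_num) hqR (by positivity)
  have hg5 : (g : ℝ) ≤ (2 * 82944) * (g : ℝ) ^ 5 := by
    have h5 : (1 : ℝ) ≤ (g : ℝ) ^ 4 := one_le_pow₀ (by linarith)
    nlinarith
  set τ : ℝ := δ * g - (μ * (1 - κ - ε) * g - 2) with hτ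
  have hterm : ∀ i ∈ Λ₀, ∀ k ∈ Finset.range (r + 2), 1 / (M i k : ℝ) ≤ (q : ℝ) ^ τ := by
    intro i hi k hk
    have hk' := Finset.mem_range.1 hk
    have hMk : (0 : ℝ) < M i k := by exact_mod_cast (hc i hi).pos k hk'
    have h5 : (q : ℝ) ^ (μ * (1 - κ - ε) * g - 2) ≤ (q : ℝ) ^ (μ * (g - k) - 1) := by
      refine Real.rpow_le_rpow_of_exponent_le hq1 ?_
      have h7 : (k : ℝ) ≤ r + 1 := by
        have : k ≤ r + 1 := by omega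
        exact_mod_cast this
      have h8 : (1 - κ - ε) * g - 1 ≤ (g : ℝ) - k := by linarith
      have h9 := mul_le_mul_of_nonneg_left h8 hμ0.le
      nlinarith
    rw [hτ, Real.rpow_sub hq0, div_le_div_iff₀ hMk (by positivity), one_mul]
    exact h5.trans (hM i hi k hk')
  have hsum : ∀ i ∈ Λ₀, ∑ k ∈ Finset.range (r + 2), (F : ℝ) ^ 2 / (M i k : ℝ) ≤ 1 := by
    intro i hi
    have h5 : ∀ k ∈ Finset.range (r + 2), (F : ℝ) ^ 2 / (M i k : ℝ) ≤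
        (q : ℝ) ^ (-(ε * g / 4)) := by
      intro k hk
      calc (F : ℝ) ^ 2 / (M i k : ℝ) = (F : ℝ) ^ 2 * (1 / (M i k : ℝ)) := by ring
        _ ≤ (q : ℝ) ^ ((μ * (1 - κ) - δ - ε) * g) * (q : ℝ) ^ τ :=
            mul_le_mul hFR (hterm i hi k hk) (by positivity) (by positivity)
        _ = (q : ℝ) ^ ((μ * (1 - κ) - δ - ε) * g + τ) := (Real.rpow_add hq0 _ _).symm
        _ ≤ _ := by
            refine Real.rpow_le_rpow_of_exponent_le hq1 ?_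
            rw [hτ]
            have h6 : 0 ≤ (1 / 2 - μ) * (ε * g) := mul_nonneg (by linarith) (by positivity)
            nlinarith
    calc ∑ k ∈ Finset.range (r + 2), (F : ℝ) ^ 2 / (M i k : ℝ) ≤
        ∑ _k ∈ Finset.range (r + 2), (q : ℝ) ^ (-(ε * g / 4)) := Finset.sum_le_sum h5
      _ = ((r + 2 : ℕ) : ℝ) * (q : ℝ) ^ (-(ε * g / 4)) := by
          rw [Finset.sum_const, Finset.card_range, nsmul_eq_mul]
      _ ≤ (q : ℝ) ^ (ε * g / 4) * (q : ℝ) ^ (-(ε * g / 4)) := by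
          refine mul_le_mul_of_nonneg_right ?_ (by positivity)
          have h6 : ((r + 2 : ℕ) : ℝ) ≤ g := by exact_mod_cast hrg
          linarith
      _ = 1 := by rw [← Real.rpow_add hq0, add_neg_cancel, Real.rpow_zero]
  have key := NPair.pair_sieve hc P hP F hF1 hPL hsum (q := q) hr (by omega) rfl
    hgr2 hrg htop hP8 hPq hd0 hdg (fun l hl k h => hPq l hl (hdq k l l.2 h)) A hA
  have hmain : 82944 * (g : ℝ) ^ 4 / (P.card : ℝ) ≤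
      1 / 2 * (q : ℝ) ^ (-((μ * (1 - κ) / 2 - δ / 2 - ε) * g)) := ?_
  · exact ⟨key.1.trans (mul_le_mul_of_nonneg_right hmain (by positivity)),
      key.2.trans (mul_le_mul_of_nonneg_right (mul_le_mul_of_nonneg_right hmain (by positivity))
        (by positivity))⟩
  calc 82944 * (g : ℝ) ^ 4 / (P.card : ℝ) = 82944 * (g : ℝ) ^ 4 * (1 / (P.card : ℝ)) := by ring
    _ ≤ 82944 * (g : ℝ) ^ 4 * (g * (q : ℝ) ^ (1 - (μ * (1 - κ) / 2 - δ / 2 - ε / 2) * g)) :=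
        mul_le_mul_of_nonneg_left hPc (by positivity)
    _ = 1 / 2 * ((2 * 82944) * (g : ℝ) ^ 5) *
        (q : ℝ) ^ (1 - (μ * (1 - κ) / 2 - δ / 2 - ε / 2) * g) := by ring
    _ ≤ 1 / 2 * (q : ℝ) ^ (ε * g / 4) * (q : ℝ) ^ (1 - (μ * (1 - κ) / 2 - δ / 2 - ε / 2) * g) := by
        refine mul_le_mul_of_nonneg_right ?_ (by positivity)
        exact mul_le_mul_of_nonneg_left hpoly2 (by norm_num)
    _ = 1 / 2 * (q : ℝ) ^ (ε * g / 4 + (1 - (μ * (1 - κ) / 2 - δ / 2 - ε / 2) * g)) := by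
        rw [mul_assoc, ← Real.rpow_add hq0]
    _ ≤ _ := by
        refine mul_le_mul_of_nonneg_left ?_ (by norm_num)
        refine Real.rpow_le_rpow_of_exponent_le hq1 ?_
        nlinarith

end Pool.Agent.J4H9.BF
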