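import Mathlib
import Pool.Agent.J4H9.BF.Eng
import Pool.Agent.J4H9.NTuples
import Pool.Agent.J4H9.NSize
import Pool.Agent.J4H9.Tuples

/-!
# Counting tuples of polynomials with divisible coefficients
-/

set_option autoImplicit false

namespace Pool.Agent.J4H9.BF

open Polynomial Filter Pool.Agent.W521.Frob Pool.Agent.W521.Descent Pool.Agent.W521.Lower
  Pool.Agent.W521.Count Pool.Agent.J4H9.Fr Pool.Agent.J4H9.Ch Pool.Agent.J4H9.Cover
  Pool.Agent.J4H9.Size Pool.Agent.J4H9.Pair Pool.Agent.J4H9.Alg Pool.Agent.J4H9.Tuples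
  Pool.Agent.J4H9.NGauss Pool.Agent.J4H9.NSize Pool.Agent.J4H9.NScale

open Classical in
/-- **The main bound.** -/
theorem tup5 {κ μ δ ε : ℝ} (hκ : 1 / 2 ≤ κ) (hκ1 : κ < 1) (hμ : 0 < μ) (hμ1 : μ ≤ 1 / 2)
    (hδ : 0 ≤ δ) (hδ1 : δ ≤ μ ^ 2 / 16) (hε : 0 < ε) (hε1 : δ / 2 + ε < μ * (1 - κ) / 2) :
    ∀ᶠ g : ℕ in atTop, ∃ r : ℕ, r.Prime ∧
    r ≠ 2 ∧ κ * g < r ∧ g < 2 * r ∧ r + 5 ≤ g ∧ ∀ p a q : ℕ, p.Prime → 0 < a → q = p ^ a → ∀ lam : ℕ → ℝ,
    Slopes lam → ht lam g ≤ (1 / 2 - μ) * g →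
    ∀ (Λ : Type) (Λ₀ : Finset Λ) (M : Λ → ℕ → ℕ) (𝒯 : Λ → ℕ → Finset ℤ[X]),
    (∀ i ∈ Λ₀, Chain (M i) g (𝒯 i)) → (∀ i ∈ Λ₀, 𝒯 i g = {1}) →
    (∀ i ∈ Λ₀, ∀ k < g, sg q p a lam (g - k) ≤ (q : ℝ) ^ (δ * g) * M i k) →
    ∀ (K : ℝ), 1 ≤ K → ∀ S : Finset ℤ[X], (∀ B ∈ S, ∃ i ∈ Λ₀, B ∈ 𝒯 i 0) →
    (∀ B ∈ S, sc (dd p a lam g) B ∈ strat q p a lam g) →
    ((uni Λ₀ 𝒯).card : ℝ) ≤ K * S.card → ∀ m : ℕ,
    (((Fintype.piFinset fun _ : Fin m => S).filter
      (fun f => ¬ GoodFam q r (fun i => sc (dd p a lam g) (f i)))).card : ℝ) ≤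
      ((m : ℝ) ^ 2 * K * (q : ℝ) ^ (-((μ * (1 - κ) / 2 - δ / 2 - ε) * g))) *
        (S.card : ℝ) ^ m := by
  filter_upwards [engine5 hκ hκ1 hμ hμ1 hδ hε hε1, eventually_ge_atTop 2,
    Engine.poly_le (show (0 : ℝ) < μ / 4 by linarith) 2 1, ratio hμ hμ1 hδ1] with
    g hg hg2 hpoly hratio
  obtain ⟨r, hr, hr3, hκr, hgr, hrg, hrg5, H⟩ := hg
  refine ⟨r, hr, by omega, hκr, hgr, hrg5, ?_⟩
  intro p a q hp ha hqpa lam hs hht Λ Λ₀ M 𝒯 hc htop hM K hK S hST hSW hKS m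
  have hq : IsPrimePow q := by
    rw [hqpa]
    exact hp.isPrimePow.pow ha.ne'
  obtain ⟨P, hP8, hPq, H'⟩ := H q hq
  have hq0 : 0 < q := hq.pos
  have hqR : (2 : ℝ) ≤ q := by exact_mod_cast hq.two_le
  have hq1 : (1 : ℝ) ≤ q := by linarith
  have hq0R : (0 : ℝ) < q := by linarith
  set d : ℕ → ℤ := dd p a lam g with hd
  have hd0 : ∀ k, d k ≠ 0 := dd_ne hp
  have hc' : ∀ i ∈ Λ₀, Chain (M i) (r + 2) (𝒯 i) := fun i hi =>
    ⟨fun j hj => (hc i hi).pos j (by omega), fun j hj => (hc i hi).down j (by omega),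
      fun j hj => (hc i hi).fib j (by omega)⟩
  have hmon : ∀ i ∈ Λ₀, ∀ j ≤ g, ∀ f ∈ 𝒯 i j, f.Monic ∧ f.natDegree + j = g :=
    fun i hi => monic_of_chain (hc i hi) (htop i hi)
  obtain ⟨hsing, hpair⟩ := H' d hd0 dd_top (fun k l hl h => by
      rw [dd_prime hp k l hl h, hqpa]
      exact dvd_pow_self p ha.ne')
    Λ Λ₀ M 𝒯 hc' (fun i hi f hf => hmon i hi (r + 2) hrg f hf)
    (fun i hi k hk => by
      have h1 := hM i hi k (by omega)
      refine le_trans ?_ h1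
      refine le_trans ?_ (sg_ge hp ha hqpa hs (g - k))
      refine Real.rpow_le_rpow_of_exponent_le hq1 ?_
      have h2 := P_ge hs hht (Nat.sub_le g k)
      rw [Nat.cast_sub (by omega)] at h2
      linarith) S hST
  set θ : ℝ := (q : ℝ) ^ (-((μ * (1 - κ) / 2 - δ / 2 - ε) * g)) with hθ
  have hθ0 : 0 < θ := by positivity
  set U : Finset (Σ _ : Λ, ℤ[X]) := uni Λ₀ 𝒯 with hU
  have hU0 : (0 : ℝ) ≤ (U.card : ℝ) := Nat.cast_nonneg _
  have hgR : (1 : ℝ) ≤ g := by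
    have : 1 ≤ g := by omega
    exact_mod_cast this
  -- the exceptional members
  let B₁ : Finset ℤ[X] := S.filter (fun h => ¬ Irreducible ((sc d h).map (Int.castRingHom ℚ)) ∨
    ¬ ∃ l ∈ P, PatE q r (sc d h) l)
  let B₂ : Finset (ℤ[X] × ℤ[X]) := (S ×ˢ S).filter (fun x => ¬ HasPair q r P (sc d x.1, sc d x.2))
  let Rd : Finset (Σ _ : Λ, ℤ[X]) := U.filter (fun x => sc d x.2 ∈ strat q p a lam g ∧
    ¬ Irreducible ((sc d x.2).map (Int.castRingHom ℚ)))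
  have hB₂ : (B₂.card : ℝ) ≤ 1 / 2 * θ * (U.card : ℝ) * (S.card : ℝ) := hpair
  have hR' : (Rd.card : ℝ) ≤ 1 / 2 * θ * (U.card : ℝ) := by
    have h1 : 2 * (g : ℝ) ≤ (q : ℝ) ^ (μ * g / 4) := by
      rw [pow_one] at hpoly
      refine hpoly.trans ?_
      have h2 : μ / 4 * (g : ℝ) = μ * g / 4 := by ring
      rw [h2]
      exact Real.rpow_le_rpow (by norm_num) hqR (by positivity)
    have h2 : (g : ℝ) * (q : ℝ) ^ (-(μ * g / 2)) ≤ 1 / 2 * θ := by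
      calc (g : ℝ) * (q : ℝ) ^ (-(μ * g / 2)) = 1 / 2 * ((2 * (g : ℝ)) * (q : ℝ) ^ (-(μ * g / 2))) := by
            ring
        _ ≤ 1 / 2 * ((q : ℝ) ^ (μ * g / 4) * (q : ℝ) ^ (-(μ * g / 2))) := by
            refine mul_le_mul_of_nonneg_left ?_ (by norm_num)
            exact mul_le_mul_of_nonneg_right h1 (by positivity)
        _ ≤ 1 / 2 * θ := by
            refine mul_le_mul_of_nonneg_left ?_ (by norm_num)
            rw [← Real.rpow_add hq0R, hθ]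
            refine Real.rpow_le_rpow_of_exponent_le hq1 ?_
            have h3 : μ * (1 - κ) / 2 ≤ μ / 4 := by nlinarith
            have h4 : (μ * (1 - κ) / 2 - δ / 2 - ε) * (g : ℝ) ≤ μ / 4 * g :=
              mul_le_mul_of_nonneg_right (by linarith) (by linarith)
            linarith
    have h3 : ∀ i ∈ Λ₀, (((𝒯 i 0).filter (fun h => sc d h ∈ strat q p a lam g ∧
        ¬ Irreducible ((sc d h).map (Int.castRingHom ℚ)))).card : ℝ) ≤
        1 / 2 * θ * ((𝒯 i 0).card : ℝ) := by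
      intro i hi
      refine (red_bound' (hc i hi) hp hq0 hs (show 0 < g by omega) (Nat.div_le_self g 2)
        (y := (q : ℝ) ^ (-(μ * g / 2))) (by positivity)
        (hratio p a q hp ha hqpa lam hs hht (M i) (hM i hi))).trans ?_
      exact mul_le_mul_of_nonneg_right h2 (Nat.cast_nonneg _)
    have h4 : Rd.card = ∑ i ∈ Λ₀, ((𝒯 i 0).filter (fun h => sc d h ∈ strat q p a lam g ∧
        ¬ Irreducible ((sc d h).map (Int.castRingHom ℚ)))).card := by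
      rw [← Finset.card_sigma]
      congr 1
      ext ⟨i, h⟩
      simp only [Rd, hU, Finset.mem_filter, Finset.mem_sigma]
      tauto
    rw [h4, hU, Finset.card_sigma]
    push_cast
    rw [Finset.mul_sum]
    exact Finset.sum_le_sum h3
  have hB₁ : (B₁.card : ℝ) ≤ θ * (U.card : ℝ) := by
    have h1 : B₁ ⊆ Rd.image (fun x => x.2) ∪
        S.filter (fun h => ¬ ∃ l ∈ P, PatE q r (sc d h) (l : ℕ)) := by
      intro h hh
      obtain ⟨h2, h3⟩ := Finset.mem_filter.1 hh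
      obtain ⟨i, hi, h4⟩ := hST h h2
      have h5 : (⟨i, h⟩ : Σ _ : Λ, ℤ[X]) ∈ U := Finset.mem_sigma.2 ⟨hi, h4⟩
      rcases h3 with h3 | h3
      · exact Finset.mem_union_left _ (Finset.mem_image.2 ⟨⟨i, h⟩, Finset.mem_filter.2
          ⟨h5, hSW h h2, h3⟩, rfl⟩)
      · exact Finset.mem_union_right _ (Finset.mem_filter.2 ⟨h2, h3⟩)
    have h2 : B₁.card ≤ Rd.card + (S.filter (fun h => ¬ ∃ l ∈ P, PatE q r (sc d h) (l : ℕ))).card :=
      (Finset.card_le_card h1).trans ((Finset.card_union_le _ _).trans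
        (Nat.add_le_add_right Finset.card_image_le _))
    have h3 : (B₁.card : ℝ) ≤ (Rd.card : ℝ) +
        ((S.filter (fun h => ¬ ∃ l ∈ P, PatE q r (sc d h) (l : ℕ))).card : ℝ) := by exact_mod_cast h2
    linarith
  -- the tuples
  have hS0 : (0 : ℝ) ≤ S.card := Nat.cast_nonneg _
  have h₁ : (B₁.card : ℝ) ≤ (K * θ) * S.card := by
    calc (B₁.card : ℝ) ≤ θ * (U.card : ℝ) := hB₁
      _ ≤ θ * (K * S.card) := mul_le_mul_of_nonneg_left hKS hθ0.le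
      _ = _ := by ring
  have h₂ : (B₂.card : ℝ) ≤ (K * θ) * (S.card : ℝ) ^ 2 := by
    calc (B₂.card : ℝ) ≤ 1 / 2 * θ * (U.card : ℝ) * S.card := hB₂
      _ ≤ θ * (U.card : ℝ) * S.card := by
          refine mul_le_mul_of_nonneg_right (mul_le_mul_of_nonneg_right ?_ hU0) hS0
          linarith
      _ ≤ θ * (K * S.card) * S.card :=
          mul_le_mul_of_nonneg_right (mul_le_mul_of_nonneg_left hKS hθ0.le) hS0
      _ = _ := by ring
  have key := card_tuples (m := m) S B₁ B₂ h₁ h₂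
  have hsub : (Fintype.piFinset fun _ : Fin m => S).filter
      (fun f => ¬ GoodFam q r (fun i => sc d (f i))) ⊆
      (Fintype.piFinset fun _ : Fin m => S).filter
      (fun f => (∃ i, f i ∈ B₁) ∨ ∃ i j, i ≠ j ∧ (f i, f j) ∈ B₂) := by
    intro f hf
    obtain ⟨h3, h4⟩ := Finset.mem_filter.1 hf
    refine Finset.mem_filter.2 ⟨h3, ?_⟩
    rw [Fintype.mem_piFinset] at h3
    by_contra hcon
    push Not at hcon
    obtain ⟨h5, h6⟩ := hcon
    apply h4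
    refine ⟨?_, ?_, ?_⟩
    · intro i
      by_contra h9
      exact h5 i (Finset.mem_filter.2 ⟨h3 i, Or.inl h9⟩)
    · intro i
      by_contra h9
      refine h5 i (Finset.mem_filter.2 ⟨h3 i, Or.inr ?_⟩)
      rintro ⟨l, hl, h10⟩
      exact h9 ⟨l, l.2, by have := hP8 l hl; omega, hPq l hl, h10⟩
    · intro i j hji
      by_contra h9
      refine h6 i j (fun h => hji h.symm) (Finset.mem_filter.2 ⟨Finset.mem_product.2 ⟨h3 i, h3 j⟩, ?_⟩)
      rintro ⟨l, hl, h10, h11⟩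
      exact h9 ⟨l, l.2, by have := hP8 l hl; omega, hPq l hl, h10, h11⟩
  have h3 : (((Fintype.piFinset fun _ : Fin m => S).filter
      (fun f => ¬ GoodFam q r (fun i => sc d (f i)))).card : ℝ) ≤
      (((Fintype.piFinset fun _ : Fin m => S).filter
      (fun f => (∃ i, f i ∈ B₁) ∨ ∃ i j, i ≠ j ∧ (f i, f j) ∈ B₂)).card : ℝ) := by
    exact_mod_cast Finset.card_le_card hsub
  refine (h3.trans ?_).trans ((key).trans (le_of_eq ?_))
  · refine le_of_eq ?_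
    congr!
  · ring

end Pool.Agent.J4H9.BF
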