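import Mathlib
import Pool.Agent.J4H9.BF.Stm
import Pool.Agent.J4H9.BF.Cnt
import Pool.Agent.J4H9.NF

/-!
# The Galois group of a Weil polynomial with the factorisation patterns
-/

set_option autoImplicit false

namespace Pool.Agent.J4H9.BF

open Polynomial NumberField Pool.Agent.W521.Frob Pool.Agent.W521.Criterion
  Pool.Agent.J4H9.Gal Pool.Agent.J4H9.Grp Pool.Agent.J4H9.NoRel Pool.Agent.J4H9.Fr
  Pool.Agent.J4H9.Alg

section

variable {q r g : ℕ} {h : Fin 1 → ℤ[X]} (hq : q ≠ 0) (hm : ∀ i, (h i).Monic)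
  (hdeg : ∀ i, (h i).natDegree ≤ g) (hr : r.Prime) (hr2 : r ≠ 2) (hgr : g < 2 * r)
  (hgood : GoodFam q r h)
  (L : Type) [Field L] [NumberField L] [IsGalois ℚ L] (j : L →+* ℂ)
  (hL : ∀ i, ∀ z : ℂ, aeval z (weil q (h i)) = 0 → ∃ x : L, j x = z)

omit [NumberField L] [IsGalois ℚ L] in
theorem up_root (f : ℤ[X]) (x : L) (hx : aeval x f = 0) : aeval (j x) f = 0 := by
  have h2 := Polynomial.hom_eval₂ f (algebraMap ℤ L) j x
  rw [RingHom.ext_int (j.comp (algebraMap ℤ L)) (algebraMap ℤ ℂ)] at h2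
  have h3 : eval₂ (algebraMap ℤ L) x f = 0 := hx
  rw [h3, map_zero] at h2
  exact h2.symm

include hq hm hdeg hr hr2 hgr hgood hL in
theorem sgn_rt : Sgn (L ≃ₐ[ℚ] L) (Rt q h L) (bar hq hm) where
  bb := bar_bar hq hm
  comm := bar_smul hq hm
  ne := by
    rintro ⟨x, i, hi⟩ hx
    have h1 := congrArg (fun y : Rt q h L => j (y : L)) hx
    have h2 : j ((q : L) / x) = j x := h1
    rw [map_div₀, map_natCast] at h2
    exact ne_conj_C hq hm hdeg hr hr2 hgr hgood (j x) ⟨i, up_root L j _ x hi⟩ h2.symm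
  trans := by
    rintro ⟨x, i, hi⟩ ⟨y, i', hi'⟩
    obtain rfl : i = i' := Subsingleton.elim _ _
    obtain ⟨τ, h1 | h1⟩ := exists_tau hq hm L j hL i (hgood.1 i) x y hi hi'
    · exact ⟨τ, Or.inl (Subtype.ext h1)⟩
    · exact ⟨τ, Or.inr (Subtype.ext h1)⟩

include hq hm hdeg hr hr2 hgr hgood hL in
theorem cyc_rt : ∃ (τ : L ≃ₐ[ℚ] L) (x₀ : Rt q h L),
    PureCyc (L ≃ₐ[ℚ] L) (Rt q h L) (bar hq hm) r τ x₀ := by
  obtain ⟨hirr, hE, hEF⟩ := hgood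
  obtain ⟨l, hl, hl2, hlq, hp⟩ := hE 0
  have : Fact l.Prime := ⟨hl⟩
  obtain ⟨k, _, hchar, φ, σ, hσ⟩ := exists_frob L l hl
  obtain ⟨x₀, y₀, h1⟩ := splitEl_of_pat φ hσ (hm 0) (splits_h hq hm L j hL 0)
    (quad_L hq hm L j hL 0) (hdeg 0) hgr hr hr2 hl2 hlq hp
  have hc := cyc_of hq hm 0 (hdeg 0) hr hr2 hgr
    (fun α β hα hβ => exists_tau hq hm L j hL 0 (hirr 0) α β hα hβ) h1 (coprime_N hr hr2)
    (Dvd.intro _ rfl)
  refine ⟨_, _, hc.taur, hc.inj, hc.ne, fun x => hc.fix x ?_⟩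
  obtain ⟨i, hi⟩ := x.2
  obtain rfl : i = 0 := Subsingleton.elim _ _
  exact hi

end

end Pool.Agent.J4H9.BF
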