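import Mathlib
import Pool.Agent.J4H9.BF.Rts

/-!
# The Galois group of a Weil polynomial has no labelling
-/

set_option autoImplicit false

namespace Pool.Agent.J4H9.BF

open Polynomial NumberField Pool.Agent.W521.Frob Pool.Agent.W521.Criterion
  Pool.Agent.J4H9.Gal Pool.Agent.J4H9.Grp Pool.Agent.J4H9.NoRel Pool.Agent.J4H9.Fr
  Pool.Agent.J4H9.Alg

section

variable {q r g : ℕ} {h : Fin 1 → ℤ[X]} (hq : q ≠ 0) (hm : ∀ i, (h i).Monic)
  (hdeg : ∀ i, (h i).natDegree ≤ g) (hr : r.Prime) (hr2 : r ≠ 2) (hgr : g < 2 * r)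
  (hgood : GoodFam q r h)
  (L : Type) [Field L] [NumberField L] [IsGalois ℚ L] (j : L →+* ℂ)
  (hL : ∀ i, ∀ z : ℂ, aeval z (weil q (h i)) = 0 → ∃ x : L, j x = z)

include hm in
omit [IsGalois ℚ L] in
theorem coe_rt : (Rt q h L : Set L) = (rts (weil q (h 0)) L : Set L) := by
  ext x
  constructor
  · rintro ⟨i, hi⟩
    obtain rfl : i = 0 := Subsingleton.elim _ _
    exact Finset.mem_coe.2 ((mem_rts (weil_monic q (hm 0)).ne_zero x).2 hi)
  · intro hx
    exact ⟨0, (mem_rts (weil_monic q (hm 0)).ne_zero x).1 (Finset.mem_coe.1 hx)⟩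

include hm in
omit [IsGalois ℚ L] in
theorem finite_rt : Finite (Rt q h L) := by
  have h1 : (Rt q h L : Set L).Finite := by
    rw [coe_rt hm L]
    exact Finset.finite_toSet _
  exact h1.to_subtype

include hm hL in
omit [IsGalois ℚ L] in
theorem card_rt (hirr : Irreducible ((weil q (h 0)).map (Int.castRingHom ℚ)))
    (hd : (weil q (h 0)).natDegree = 2 * g) : Nat.card (Rt q h L) = 2 * g := by
  classical
  have h1 : Nat.card (Rt q h L) = (rts (weil q (h 0)) L).card := by
    have h2 : Nat.card (Rt q h L) = (Rt q h L : Set L).ncard := rfl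
    rw [h2, coe_rt hm L, Set.ncard_coe_finset]
  rw [h1, ← hd]
  have hmw : (weil q (h 0)).Monic := weil_monic q (hm 0)
  have hsplit : ((weil q (h 0)).map (algebraMap ℤ L)).Splits := by
    refine Splits.of_splits_map j (IsAlgClosed.splits _) ?_
    intro z hz
    have h1 := (mem_roots'.1 hz).2
    have e1 : ((weil q (h 0)).map (algebraMap ℤ L)).map j =
        (weil q (h 0)).map (algebraMap ℤ ℂ) := by
      rw [Polynomial.map_map]
      congr 1
      exact RingHom.ext_int _ _
    rw [e1, IsRoot.def, eval_map] at h1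
    exact hL 0 z h1
  have hsep : ((weil q (h 0)).map (algebraMap ℤ L)).Separable := by
    have h2 := hirr.separable.map (f := algebraMap ℚ L)
    rw [Polynomial.map_map, RingHom.ext_int ((algebraMap ℚ L).comp _) (algebraMap ℤ L)] at h2
    exact h2
  unfold rts
  rw [Multiset.toFinset_card_of_nodup (nodup_roots hsep), ← hsplit.natDegree_eq_card_roots,
    hmw.natDegree_map]

include hq hm hdeg hr hr2 hgr hgood hL in
theorem no_labelling (hnorm : ∀ i, ∀ z : ℂ, aeval z (weil q (h i)) = 0 → ‖z‖ ^ 2 = q)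
    (hne : Nonempty (Rt q h L)) :
    ¬ Labelling (L ≃ₐ[ℚ] L) (Rt q h L) (bar hq hm) := by
  classical
  rintro ⟨R, hR, hσ⟩
  have hS := sgn_rt hq hm hdeg hr hr2 hgr hgood L j hL
  have hqL : (q : L) ≠ 0 := by exact_mod_cast hq
  have : Finite (Rt q h L) := finite_rt hm L
  have := Fintype.ofFinite (Rt q h L)
  have hx0 : ∀ x : Rt q h L, (x : L) ≠ 0 := by
    rintro ⟨x, i, hi⟩
    exact root_ne_zero hq (hm i) hi
  let T : Finset (Rt q h L) := Finset.univ.filter (fun x => x ∈ R)
  have hT : ∀ x, x ∈ T ↔ x ∈ R := fun x => by simp [T]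
  let A : L := ∏ x ∈ T, (x : L)
  let B : L := ∏ x ∈ T, ((bar hq hm x : Rt q h L) : L)
  have hAB : A * B = (q : L) ^ T.card := by
    rw [← Finset.prod_mul_distrib, Finset.prod_congr rfl (g := fun _ => (q : L)),
      Finset.prod_const]
    intro x _
    rw [coe_bar]
    field_simp [hx0 x]
  -- the action of the Galois group
  have hact : ∀ σ : L ≃ₐ[ℚ] L, (σ A = A ∧ σ B = B) ∨ (σ A = B ∧ σ B = A) := by
    intro σ
    have e1 : σ A = ∏ x ∈ T.map ⟨fun x => σ • x, MulAction.injective σ⟩, (x : L) := by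
      rw [Finset.prod_map, map_prod]
      rfl
    have e2 : σ B = ∏ x ∈ T.map ⟨fun x => σ • x, MulAction.injective σ⟩,
        ((bar hq hm x : Rt q h L) : L) := by
      rw [Finset.prod_map, map_prod]
      refine Finset.prod_congr rfl fun x _ => ?_
      change σ ((bar hq hm x : Rt q h L) : L) = ((bar hq hm (σ • x) : Rt q h L) : L)
      rw [bar_smul]
      rfl
    rcases hσ σ with h1 | h1
    · left
      have h2 : T.map ⟨fun x => σ • x, MulAction.injective σ⟩ = T := by
        refine Finset.eq_of_subset_of_card_le ?_ (by rw [Finset.card_map])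
        intro y hy
        obtain ⟨x, hx, rfl⟩ := Finset.mem_map.1 hy
        exact (hT _).2 (h1 x ((hT x).1 hx))
      rw [e1, e2, h2]
      exact ⟨rfl, rfl⟩
    · right
      have h2 : T.map ⟨fun x => σ • x, MulAction.injective σ⟩ = T.image (bar hq hm) := by
        refine Finset.eq_of_subset_of_card_le ?_ ?_
        · intro y hy
          obtain ⟨x, hx, rfl⟩ := Finset.mem_map.1 hy
          refine Finset.mem_image.2 ⟨bar hq hm (σ • x), ?_, bar_bar hq hm _⟩
          rw [hT]
          by_contra h3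
          exact h1 x ((hT x).1 hx) ((hR _).2 h3)
        · rw [Finset.card_map]
          exact Finset.card_image_le
      have hinj : Set.InjOn (bar hq hm) (T : Set (Rt q h L)) := by
        intro x _ y _ hxy
        rw [← bar_bar hq hm x, hxy, bar_bar]
      rw [e1, e2, h2, Finset.prod_image hinj, Finset.prod_image hinj]
      refine ⟨rfl, Finset.prod_congr rfl fun x _ => ?_⟩
      rw [bar_bar]
  -- the sum is an integer
  have hAi : IsIntegral ℤ A := by
    refine IsIntegral.prod _ fun x _ => ?_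
    obtain ⟨i, hi⟩ := x.2
    exact ⟨weil q (h i), weil_monic q (hm i), hi⟩
  have hBi : IsIntegral ℤ B := by
    refine IsIntegral.prod _ fun x _ => ?_
    obtain ⟨i, hi⟩ := (bar hq hm x).2
    exact ⟨weil q (h i), weil_monic q (hm i), hi⟩
  obtain ⟨t, ht⟩ : ∃ t : ℚ, algebraMap ℚ L t = A + B := by
    refine (IsGalois.mem_range_algebraMap_iff_fixed (A + B)).2 fun σ => ?_
    rw [map_add]
    rcases hact σ with ⟨h1, h2⟩ | ⟨h1, h2⟩
    · rw [h1, h2]
    · rw [h1, h2, add_comm]
  obtain ⟨n, hn⟩ : ∃ n : ℤ, (n : ℚ) = t := by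
    have h1 : IsIntegral ℤ t := by
      have h2 : IsIntegral ℤ (algebraMap ℚ L t) := by
        rw [ht]
        exact hAi.add hBi
      exact (isIntegral_algebraMap_iff (algebraMap ℚ L).injective).1 h2
    obtain ⟨n, hn⟩ := IsIntegrallyClosed.isIntegral_iff.1 h1
    exact ⟨n, by simpa using hn⟩
  have hn' : (n : L) = A + B := by
    rw [← ht, ← hn]
    simp
  let χ : ℤ[X] := X ^ 2 + (C (-n) * X + C ((q : ℤ) ^ T.card))
  have hχd : (C (-n) * X + C ((q : ℤ) ^ T.card) : ℤ[X]).degree < ((2 : ℕ) : WithBot ℕ) :=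
    lt_of_le_of_lt degree_linear_le (by norm_num)
  have hχm : χ.Monic := monic_X_pow_add hχd
  have hχn : χ.natDegree ≤ 2 := by
    refine natDegree_le_iff_degree_le.2 ?_
    refine (degree_add_le _ _).trans (max_le (degree_X_pow_le 2) hχd.le)
  have hχr : aeval (j B) χ = 0 := by
    have h1 : j B ^ 2 + (-(n : ℂ) * j B + (q : ℂ) ^ T.card) = 0 := by
      have h2 : j (n : L) = (n : ℂ) := map_intCast j n
      have h3 : j ((q : L) ^ T.card) = (q : ℂ) ^ T.card := by rw [map_pow, map_natCast]
      rw [← h2, ← h3, hn', ← hAB, map_add, map_mul]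
      ring
    simp only [χ, map_add, map_mul, map_pow, aeval_X, aeval_C]
    simpa using h1
  have hB : j B ∈ smallField 2 := Subfield.subset_closure ⟨χ, hχm, hχn, hχr⟩
  have h2r : 2 < r := lt_of_le_of_ne hr.two_le (Ne.symm hr2)
  -- the relation
  obtain ⟨x, hxR⟩ : ∃ x, x ∈ R := by
    obtain ⟨x⟩ := hne
    by_cases hx : x ∈ R
    · exact ⟨x, hx⟩
    · refine ⟨bar hq hm x, ?_⟩
      rw [hR, bar_bar]
      exact hx
  have key := counts_C hq hm hdeg hr hr2 hgr hgood hnorm h2r (j B) hB
    (T.toList.map (fun x : Rt q h L => j (x : L))) (by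
      intro z hz
      obtain ⟨x, -, rfl⟩ := List.mem_map.1 hz
      obtain ⟨i, hi⟩ := x.2
      exact ⟨i, up_root L j _ _ hi⟩) 1 T.card 1 one_pos one_pos (by
      rw [pow_one, pow_one, pow_one, pow_one, Finset.prod_map_toList, ← map_prod, ← map_mul,
        ← map_natCast j, ← map_pow]
      exact congrArg j hAB) (j (x : L)) (by
      obtain ⟨i, hi⟩ := x.2
      exact ⟨i, up_root L j _ _ hi⟩)
  have hinj : Function.Injective (fun y : Rt q h L => j (y : L)) :=
    j.injective.comp Subtype.val_injective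
  have h1 : (T.toList.map (fun x : Rt q h L => j (x : L))).count (j (x : L)) = 1 := by
    rw [List.count_map_of_injective _ _ hinj x]
    exact List.count_eq_one_of_mem T.nodup_toList (Finset.mem_toList.2 ((hT x).2 hxR))
  have h2 : (T.toList.map (fun x : Rt q h L => j (x : L))).count ((q : ℂ) / j (x : L)) = 0 := by
    have h3 : (q : ℂ) / j (x : L) = j ((bar hq hm x : Rt q h L) : L) := by
      rw [coe_bar, map_div₀, map_natCast]
    rw [h3]
    rw [List.count_map_of_injective _ _ hinj (bar hq hm x)]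
    refine List.count_eq_zero_of_not_mem ?_
    rw [Finset.mem_toList, hT]
    exact (hR x).1 hxR
  omega

end

end Pool.Agent.J4H9.BF
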