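import Mathlib
import Pool.Agent.J4H9.BF.Lab
import Pool.Agent.J4H9.BF.Stm3

/-!
# Double flips in one block of a family
-/

set_option autoImplicit false
set_option linter.unusedSectionVars false

namespace Pool.Agent.J4H9.BF

open Polynomial NumberField Pool.Agent.W521.Frob Pool.Agent.W521.Criterion
  Pool.Agent.J4H9.Gal Pool.Agent.J4H9.Grp Pool.Agent.J4H9.NoRel Pool.Agent.J4H9.Fr
  Pool.Agent.J4H9.Alg Pool.Agent.J4H9.Per Function

section

variable {n : ℕ} {q r g : ℕ} {h : Fin n → ℤ[X]}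

/-- The elements of the Galois group which fix the roots of the Weil polynomials in `s`. -/
def Kf (q : ℕ) (h : Fin n → ℤ[X]) (L : Type) [Field L] [NumberField L] (s : Finset (Fin n)) :
    Subgroup (L ≃ₐ[ℚ] L) where
  carrier := {σ | ∀ k ∈ s, ∀ x : L, aeval x (weil q (h k)) = 0 → σ • x = x}
  one_mem' := fun _ _ x _ => one_smul _ x
  mul_mem' := fun ha hb k hk x hx => by rw [mul_smul, hb k hk x hx, ha k hk x hx]
  inv_mem' := fun ha k hk x hx => by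
    rw [inv_smul_eq_iff]
    exact (ha k hk x hx).symm

variable (hq : q ≠ 0) (hm : ∀ i, (h i).Monic)
  (hdeg : ∀ i, (h i).natDegree ≤ g) (hr : r.Prime) (hr2 : r ≠ 2) (hgr : g < 2 * r)
  (hgood : GoodFam q r h)
  (L : Type) [Field L] [NumberField L] [IsGalois ℚ L] (j : L →+* ℂ)
  (hL : ∀ i, ∀ z : ℂ, aeval z (weil q (h i)) = 0 → ∃ x : L, j x = z)

omit [IsGalois ℚ L] in
theorem Kf_normal (s : Finset (Fin n)) : (Kf q h L s).Normal :=
  ⟨fun a ha γ k hk x hx => by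
    rw [mul_smul, mul_smul, ha k hk (γ⁻¹ • x) (aeval_smul _ γ⁻¹ x hx), smul_inv_smul]⟩

omit [IsGalois ℚ L] in
theorem mem_Kf_insert (s : Finset (Fin n)) (k : Fin n) (σ : L ≃ₐ[ℚ] L) (h1 : σ ∈ Kf q h L s)
    (h2 : σ ∈ Kf q h L {k}) : σ ∈ Kf q h L (insert k s) := by
  intro k' hk' x hx
  rcases Finset.mem_insert.1 hk' with rfl | h3
  · exact h2 k' (Finset.mem_singleton_self _) x hx
  · exact h1 k' h3 x hx

theorem good_one (hgood : GoodFam q r h) (i : Fin n) : GoodFam q r (fun _ : Fin 1 => h i) :=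
  ⟨fun _ => hgood.1 i, fun _ => hgood.2.1 i, fun a b hab => absurd (Subsingleton.elim b a) hab⟩

include hq hm hdeg hr hr2 hgr hgood hL in
theorem cyc_pair (i k : Fin n) (hki : k ≠ i) :
    ∃ (τ : L ≃ₐ[ℚ] L) (x₀ : Rt q (fun _ : Fin 1 => h i) L), τ ∈ Kf q h L {k} ∧
      PureCyc (L ≃ₐ[ℚ] L) (Rt q (fun _ : Fin 1 => h i) L) (bar hq fun _ => hm i) r τ x₀ := by
  have hqL : (q : L) ≠ 0 := by exact_mod_cast hq
  obtain ⟨hirr, -, hEF⟩ := hgood
  obtain ⟨l, hl, hl2, hlq, hp, hp'⟩ := hEF i k hki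
  have : Fact l.Prime := ⟨hl⟩
  obtain ⟨k', _, hchar, φ, σ, hσ⟩ := exists_frob L l hl
  obtain ⟨x₀, y₀, h1⟩ := splitEl_of_pat φ hσ (hm i) (splits_h hq hm L j hL i)
    (quad_L hq hm L j hL i) (hdeg i) hgr hr hr2 hl2 hlq hp
  obtain ⟨θ, h2⟩ := longEl_of_pat φ hσ (hm k) (splits_h hq hm L j hL k) (hdeg k)
    (show g < 2 * (r + 1) by omega) (Nat.succ_pos r) hp'
  have hc := cyc_of (h := fun _ : Fin 1 => h i) hq (fun _ => hm i) 0 (hdeg i) hr hr2 hgr
    (fun α β hα hβ => exists_tau hq hm L j hL i (hirr i) α β hα hβ) h1 (coprime_N hr hr2)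
    (Dvd.intro _ rfl)
  refine ⟨_, _, ?_, hc.taur, hc.inj, hc.ne, fun x => hc.fix x ?_⟩
  · intro k₁ hk₁ z hz
    obtain rfl := Finset.mem_singleton.1 hk₁
    rcases fix_or hq (hm k₁) (hdeg k₁) (Nat.succ_pos r) (show g < r + 1 + r by omega) h2.rx h2.per
      z hz with ⟨m, h3⟩ | h3
    · have hz0 : z ≠ 0 := root_ne_zero hq (hm k₁) hz
      have h4 : σ ^ (r + 1) • (z + (q : L) / z) = z + q / z := by
        rw [h3, ← mul_smul, ← pow_add, pow_smul_eq_iff h2.per]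
        simp [Nat.ModEq]
      have h5 := sq_fix hz0 hqL h4
      have e : 2 * (r - 1).factorial * (r + 1) = (r + 1) * 2 * (r - 1).factorial := by ring
      rw [e, pow_mul, pow_mul]
      exact pow_fix h5 _
    · rw [pow_mul]
      exact pow_fix h3 _
  · obtain ⟨i', hi'⟩ := x.2
    exact hi'

include hq hm hdeg hr hr2 hgr hgood hL in
/-- Pure cycles of length three in the blocks which fix the elements of the other blocks. -/
theorem three_in (t_JOR : S_JOR) (t_TRI : S_TRI) (t_N3 : S_N3) (t_CMT : S_CMT)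
    (hrg : r + 5 ≤ g) (hg : 10 ≤ g) (i : Fin n)
    (hcard : Nat.card (Rt q (fun _ : Fin 1 => h i) L) = 2 * g) (s : Finset (Fin n)) (his : i ∉ s) :
    (∀ m ≤ 5, MT (L ≃ₐ[ℚ] L) (Rt q (fun _ : Fin 1 => h i) L) (bar hq fun _ => hm i) m) ∧
    ∃ (z : L ≃ₐ[ℚ] L) (x₁ : Rt q (fun _ : Fin 1 => h i) L), z ∈ Kf q h L s ∧
      PureCyc (L ≃ₐ[ℚ] L) (Rt q (fun _ : Fin 1 => h i) L) (bar hq fun _ => hm i) 3 z x₁ := by
  have hS := sgn_rt (h := fun _ : Fin 1 => h i) hq (fun _ => hm i) (fun _ => hdeg i) hr hr2 hgr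
    (good_one hgood i) L j (fun _ => hL i)
  have : Finite (Rt q (fun _ : Fin 1 => h i) L) := finite_rt (fun _ => hm i) L
  obtain ⟨τ, x₀, hc⟩ := cyc_rt (h := fun _ : Fin 1 => h i) hq (fun _ => hm i) (fun _ => hdeg i) hr
    hr2 hgr (good_one hgood i) L j (fun _ => hL i)
  have hMT : ∀ m ≤ g - r,
      MT (L ≃ₐ[ℚ] L) (Rt q (fun _ : Fin 1 => h i) L) (bar hq fun _ => hm i) m :=
    fun m hm' => t_JOR _ _ _ g r hS hcard hr hgr (by omega) τ x₀ hc m hm'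
  have hMT5 : ∀ m ≤ 5,
      MT (L ≃ₐ[ℚ] L) (Rt q (fun _ : Fin 1 => h i) L) (bar hq fun _ => hm i) m :=
    fun m hm' => hMT m (by omega)
  have h3 := t_TRI _ _ _ g r hS hcard hr (by omega) hgr (by omega) τ x₀ hc (hMT _ le_rfl)
  refine ⟨hMT5, ?_⟩
  induction s using Finset.induction_on with
  | empty =>
    obtain ⟨z, x₁, hz⟩ := h3
    exact ⟨z, x₁, fun k hk => absurd hk (Finset.notMem_empty k), hz⟩
  | insert k s hks ih =>
    have hki : k ≠ i := fun e => his (by rw [← e]; exact Finset.mem_insert_self _ _)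
    obtain ⟨τ', x', hτ', hc'⟩ := cyc_pair hq hm hdeg hr hr2 hgr hgood L j hL i k hki
    have h4 := t_N3 _ _ _ g r hS hcard hr (by omega) hgr hrg hMT5 h3 (Kf q h L {k})
      (Kf_normal L _) τ' x' hτ' hc'
    obtain ⟨z, x₁, ⟨hz1, hz2⟩, hz⟩ := t_CMT _ _ _ g hS hcard (by omega) hMT5 (Kf q h L s)
      (Kf q h L {k}) (Kf_normal L _) (Kf_normal L _)
      (ih fun h5 => his (Finset.mem_insert_of_mem h5)) h4
    exact ⟨z, x₁, mem_Kf_insert L s k z hz1 hz2, hz⟩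

include hq hm hdeg hr hr2 hgr hgood hL in
/-- **Double flips in one block which fix the elements of the other blocks.** -/
theorem flips_in (t_JOR : S_JOR) (t_TRI : S_TRI) (t_N3 : S_N3) (t_CMT : S_CMT) (t_DCN : S_DCN)
    (hrg : r + 5 ≤ g) (hg : 10 ≤ g) (i : Fin n)
    (hcard : Nat.card (Rt q (fun _ : Fin 1 => h i) L) = 2 * g)
    (hnorm : ∀ i, ∀ z : ℂ, aeval z (weil q (h i)) = 0 → ‖z‖ ^ 2 = q)
    (x y : Rt q (fun _ : Fin 1 => h i) L) (hyx : y ≠ x) (hyx' : y ≠ bar hq (fun _ => hm i) x) :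
    ∃ ν ∈ Kf q h L (Finset.univ.erase i), ν • x = bar hq (fun _ => hm i) x ∧
      ν • y = bar hq (fun _ => hm i) y ∧
      ∀ z, z ≠ x → z ≠ bar hq (fun _ => hm i) x → z ≠ y → z ≠ bar hq (fun _ => hm i) y →
        ν • z = z := by
  have hS := sgn_rt (h := fun _ : Fin 1 => h i) hq (fun _ => hm i) (fun _ => hdeg i) hr hr2 hgr
    (good_one hgood i) L j (fun _ => hL i)
  have : Finite (Rt q (fun _ : Fin 1 => h i) L) := finite_rt (fun _ => hm i) L
  obtain ⟨hMT, h3⟩ := three_in hq hm hdeg hr hr2 hgr hgood L j hL t_JOR t_TRI t_N3 t_CMT hrg hg i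
    hcard (Finset.univ.erase i) (Finset.notMem_erase i _)
  rcases t_DCN _ _ _ g hS hcard (by omega) hMT (Kf q h L (Finset.univ.erase i)) (Kf_normal L _) h3
    with h4 | h4
  · exact h4 x y hyx hyx'
  · exact absurd h4 (no_labelling (h := fun _ : Fin 1 => h i) hq (fun _ => hm i) (fun _ => hdeg i)
      hr hr2 hgr (good_one hgood i) L j (fun _ => hL i) (fun _ => hnorm i) ⟨x⟩)

include hq hm hdeg hr hr2 hgr hgood hL in
theorem flips_blk (t_JOR : S_JOR) (t_TRI : S_TRI) (t_N3 : S_N3) (t_CMT : S_CMT) (t_DCN : S_DCN)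
    (hrg : r + 5 ≤ g) (hg : 10 ≤ g) (i : Fin n)
    (hcard : Nat.card (Rt q (fun _ : Fin 1 => h i) L) = 2 * g)
    (hnorm : ∀ i, ∀ z : ℂ, aeval z (weil q (h i)) = 0 → ‖z‖ ^ 2 = q)
    (x y : L) (hx : aeval x (weil q (h i)) = 0) (hy : aeval y (weil q (h i)) = 0) (hyx : y ≠ x)
    (hyx' : y ≠ q / x) :
    ∃ ν : L ≃ₐ[ℚ] L, ν • x = q / x ∧ ν • y = q / y ∧
      ∀ k, ∀ z : L, aeval z (weil q (h k)) = 0 → z ≠ x → z ≠ q / x → z ≠ y → z ≠ q / y →
        ν • z = z := by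
  obtain ⟨ν, hν, h5, h6, h7⟩ := flips_in hq hm hdeg hr hr2 hgr hgood L j hL t_JOR t_TRI t_N3 t_CMT
    t_DCN hrg hg i hcard hnorm ⟨x, 0, hx⟩ ⟨y, 0, hy⟩
    (fun e => hyx (congrArg (fun u : Rt q (fun _ : Fin 1 => h i) L => (u : L)) e))
    (fun e => hyx' (congrArg (fun u : Rt q (fun _ : Fin 1 => h i) L => (u : L)) e))
  refine ⟨ν, congrArg (fun u : Rt q (fun _ : Fin 1 => h i) L => (u : L)) h5,
    congrArg (fun u : Rt q (fun _ : Fin 1 => h i) L => (u : L)) h6, ?_⟩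
  intro k z hz h8 h9 h10 h11
  by_cases hk : k = i
  · subst hk
    have h12 := h7 ⟨z, 0, hz⟩
      (fun e => h8 (congrArg (fun u : Rt q (fun _ : Fin 1 => h k) L => (u : L)) e))
      (fun e => h9 (congrArg (fun u : Rt q (fun _ : Fin 1 => h k) L => (u : L)) e))
      (fun e => h10 (congrArg (fun u : Rt q (fun _ : Fin 1 => h k) L => (u : L)) e))
      (fun e => h11 (congrArg (fun u : Rt q (fun _ : Fin 1 => h k) L => (u : L)) e))
    exact congrArg (fun u : Rt q (fun _ : Fin 1 => h k) L => (u : L)) h12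
  · exact hν k (Finset.mem_erase.2 ⟨hk, Finset.mem_univ _⟩) z hz

include hq hm hdeg hr hr2 hgr hgood hL in
/-- **Three roots of one block can be moved to any three roots in different pairs by elements
which fix the other blocks.** -/
theorem trans_blk (t_JOR : S_JOR) (t_TRI : S_TRI) (t_N3 : S_N3) (t_CMT : S_CMT) (t_DCN : S_DCN)
    (t_K3 : S_K3) (hrg : r + 5 ≤ g) (hg : 10 ≤ g) (i : Fin n)
    (hcard : Nat.card (Rt q (fun _ : Fin 1 => h i) L) = 2 * g)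
    (hnorm : ∀ i, ∀ z : ℂ, aeval z (weil q (h i)) = 0 → ‖z‖ ^ 2 = q)
    (a b : Fin 3 → L) (ha : ∀ t, aeval (a t) (weil q (h i)) = 0)
    (hb : ∀ t, aeval (b t) (weil q (h i)) = 0)
    (hDa : ∀ s t, s ≠ t → a s ≠ a t ∧ a s ≠ q / a t)
    (hDb : ∀ s t, s ≠ t → b s ≠ b t ∧ b s ≠ q / b t) :
    ∃ σ : L ≃ₐ[ℚ] L, (∀ t, σ • a t = b t) ∧
      ∀ k ≠ i, ∀ z : L, aeval z (weil q (h k)) = 0 → σ • z = z := by
  have hS := sgn_rt (h := fun _ : Fin 1 => h i) hq (fun _ => hm i) (fun _ => hdeg i) hr hr2 hgr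
    (good_one hgood i) L j (fun _ => hL i)
  have : Finite (Rt q (fun _ : Fin 1 => h i) L) := finite_rt (fun _ => hm i) L
  obtain ⟨hMT, h3⟩ := three_in hq hm hdeg hr hr2 hgr hgood L j hL t_JOR t_TRI t_N3 t_CMT hrg hg i
    hcard (Finset.univ.erase i) (Finset.notMem_erase i _)
  obtain ⟨σ, hσ, h4⟩ := t_K3 _ _ _ g hS hcard (by omega) hMT (Kf q h L (Finset.univ.erase i))
    (Kf_normal L _) h3
    (flips_in hq hm hdeg hr hr2 hgr hgood L j hL t_JOR t_TRI t_N3 t_CMT t_DCN hrg hg i hcard hnorm)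
    (fun t => ⟨a t, 0, ha t⟩) (fun t => ⟨b t, 0, hb t⟩)
    (fun s t hst =>
      ⟨fun e => (hDa s t hst).1 (congrArg (fun u : Rt q (fun _ : Fin 1 => h i) L => (u : L)) e),
       fun e => (hDa s t hst).2 (congrArg (fun u : Rt q (fun _ : Fin 1 => h i) L => (u : L)) e)⟩)
    (fun s t hst =>
      ⟨fun e => (hDb s t hst).1 (congrArg (fun u : Rt q (fun _ : Fin 1 => h i) L => (u : L)) e),
       fun e => (hDb s t hst).2 (congrArg (fun u : Rt q (fun _ : Fin 1 => h i) L => (u : L)) e)⟩)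
  exact ⟨σ, fun t => congrArg (fun u : Rt q (fun _ : Fin 1 => h i) L => (u : L)) (h4 t),
    fun k hk z hz => hσ k (Finset.mem_erase.2 ⟨hk, Finset.mem_univ _⟩) z hz⟩

end

end Pool.Agent.J4H9.BF
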