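import Mathlib
import Pool.Agent.J4H9.BF.Stm3

/-!
# The placement of three roots
-/

set_option autoImplicit false

namespace Pool.Agent.J4H9.BF

/-- A new element of a block. -/
theorem exists_new {X I : Type} [Finite X] (bar : X → X) (β : X → I) (g : ℕ) (i : I)
    (hcard : Nat.card {y // β y = i} = 2 * g) (F : Finset X)
    (hF : F.card < g) : ∃ y, β y = i ∧ y ∉ F ∧ ∀ z ∈ F, y ≠ bar z := by
  classical
  by_contra hcon
  push Not at hcon
  have h1 : {y : X | β y = i} ⊆ ((F ∪ F.image bar : Finset X) : Set X) := by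
    intro y hy
    rw [Finset.mem_coe, Finset.mem_union]
    by_cases h2 : y ∈ F
    · exact Or.inl h2
    · obtain ⟨z, hz, h3⟩ := hcon y hy h2
      exact Or.inr (Finset.mem_image.2 ⟨z, hz, h3.symm⟩)
  have h2 := Set.ncard_le_ncard h1 (Finset.finite_toSet _)
  have h3 : {y : X | β y = i}.ncard = 2 * g := hcard
  rw [h3, Set.ncard_coe_finset] at h2
  have h4 := Finset.card_union_le F (F.image bar)
  have h5 := Finset.card_image_le (s := F) (f := bar)
  omega

theorem plc (t_AVG : S_AVG) {G X I : Type} [Group G] [Finite G] [MulAction G X] [Finite X]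
    [Fintype I] (bar : X → X) (β : X → I) (g : ℕ)
    (hbb : ∀ x, bar (bar x) = x) (hne : ∀ x, bar x ≠ x)
    (hcomm : ∀ (s : G) (x : X), bar (s • x) = s • bar x)
    (hβbar : ∀ x, β (bar x) = β x) (hβG : ∀ (s : G) (x : X), β (s • x) = β x)
    (hcard : ∀ i, Nat.card {y // β y = i} = 2 * g) (hg : 6 ≤ g)
    (hflip : ∀ x y : X, β x = β y → y ≠ x → y ≠ bar x → ∃ ν : G, ν • x = bar x ∧ ν • y = bar y ∧
      ∀ z, z ≠ x → z ≠ bar x → z ≠ y → z ≠ bar y → ν • z = z)
    (hT : ∀ (i : I) (a b : Fin 3 → X), (∀ t, β (a t) = i) → (∀ t, β (b t) = i) → Dist bar a →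
      Dist bar b → ∃ σ : G, (∀ t, σ • a t = b t) ∧ ∀ z, β z ≠ i → σ • z = z)
    (w : X → ℝ) (hw : ∀ x, w (bar x) = - w x) (B : ℝ)
    (hc : ∀ i, ∃ c : Fin 3 → X, (∀ t, β (c t) = i) ∧ Dist bar c ∧ B < ∑ t, |w (c t)|)
    (n : ℕ) (x : Fin (n + 3) → X) (hx : ∀ k l, x k ≠ bar (x l))
    (hB : ∀ ν : G, ∑ k, w (ν • x k) ≤ B) : False := by
  classical
  -- nonnegative values
  have hc' : ∀ i, ∃ c : Fin 3 → X, (∀ t, β (c t) = i) ∧ Dist bar c ∧ (∀ t, 0 ≤ w (c t)) ∧
      B < ∑ t, w (c t) := by
    intro i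
    obtain ⟨c, h1, h2, h3⟩ := hc i
    refine ⟨fun t => if 0 ≤ w (c t) then c t else bar (c t), ?_, ?_, ?_, ?_⟩
    · intro t
      dsimp only
      split_ifs
      · exact h1 t
      · rw [hβbar]; exact h1 t
    · intro s t hst
      obtain ⟨h4, h5⟩ := h2 s t hst
      have h6 : bar (c s) ≠ c t := fun e => (h2 t s hst.symm).2 e.symm
      have h7 : bar (c s) ≠ bar (c t) := fun e => h4 (by rw [← hbb (c s), e, hbb])
      dsimp only
      split_ifs
      · exact ⟨h4, h5⟩
      · refine ⟨h5, ?_⟩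
        rw [hbb]
        exact h4
      · exact ⟨h6, h7⟩
      · refine ⟨h7, ?_⟩
        rw [hbb]
        exact h6
    · intro t
      dsimp only
      split_ifs with h4
      · exact h4
      · rw [hw]
        linarith
    · refine lt_of_lt_of_le h3 (le_of_eq (Finset.sum_congr rfl fun t _ => ?_))
      dsimp only
      split_ifs with h4
      · exact abs_of_nonneg h4
      · rw [hw]
        exact abs_of_neg (by linarith)
  choose c hc1 hc2 hc3 hc4 using hc'
  -- the three roots
  let x' : Fin 3 → X := ![x 0, x 1, x 2]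
  have hx' : ∀ s t, x' s ≠ bar (x' t) := by
    intro s t
    fin_cases s <;> fin_cases t <;> exact hx _ _
  let τ : Fin 3 → Fin 3 := fun t => if x' 0 = x' t then 0 else if x' 1 = x' t then 1 else 2
  have hτ : ∀ t, x' (τ t) = x' t := by
    intro t
    simp only [τ]
    split_ifs with h1 h2
    · exact h1
    · exact h2
    · fin_cases t
      · exact absurd rfl h1
      · exact absurd rfl h2
      · rfl
  have hττ : ∀ s t, x' s = x' t → τ s = τ t := by
    intro s t hst
    simp only [τ, hst]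
  -- the rotation
  obtain ⟨r, hr⟩ : ∃ r : Fin 3, B < ∑ t, w (c (β (x' t)) (τ t + r)) := by
    by_contra hcon
    push Not at hcon
    have h1 : ∑ r : Fin 3, ∑ t, w (c (β (x' t)) (τ t + r)) ≤ ∑ _r : Fin 3, B :=
      Finset.sum_le_sum fun r _ => hcon r
    rw [Finset.sum_comm] at h1
    have h2 : ∀ t, ∑ r : Fin 3, w (c (β (x' t)) (τ t + r)) = ∑ s, w (c (β (x' t)) s) := by
      intro t
      exact Equiv.sum_comp (Equiv.addLeft (τ t)) (fun s => w (c (β (x' t)) s))
    have h3 : ∑ _t : Fin 3, B < ∑ t, ∑ s, w (c (β (x' t)) s) :=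
      Finset.sum_lt_sum_of_nonempty Finset.univ_nonempty fun t _ => hc4 _
    rw [Finset.sum_congr rfl fun t _ => h2 t] at h1
    linarith
  -- the tuples in the blocks
  have ha : ∀ i, ∃ a : Fin 3 → X, (∀ t, β (a t) = i) ∧ Dist bar a ∧
      ∀ t, β (x' t) = i → a (τ t) = x' t := by
    intro i
    obtain ⟨u₀, h0, h0', h0''⟩ := exists_new bar β g i (hcard i) {x' 0, x' 1, x' 2}
      (lt_of_le_of_lt Finset.card_le_three (by omega))
    obtain ⟨u₁, h1, h1', h1''⟩ := exists_new bar β g i (hcard i) {u₀, x' 0, x' 1, x' 2}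
      (lt_of_le_of_lt Finset.card_le_four (by omega))
    obtain ⟨u₂, h2, h2', h2''⟩ := exists_new bar β g i (hcard i) {u₁, u₀, x' 0, x' 1, x' 2}
      (lt_of_le_of_lt Finset.card_le_five (by omega))
    let u : Fin 3 → X := ![u₀, u₁, u₂]
    have hui : ∀ s, β (u s) = i := by
      intro s
      fin_cases s
      · exact h0
      · exact h1
      · exact h2
    have hux : ∀ s t, u s ≠ x' t ∧ u s ≠ bar (x' t) := by
      intro s t
      have hmem : ∀ t, x' t ∈ ({x' 0, x' 1, x' 2} : Finset X) := by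
        intro t
        fin_cases t <;> simp
      fin_cases s
      · exact ⟨fun e => h0' (by rw [show u₀ = x' t from e]; exact hmem t), h0'' _ (hmem t)⟩
      · exact ⟨fun e => h1' (by
            rw [show u₁ = x' t from e]; exact Finset.mem_insert_of_mem (hmem t)),
          h1'' _ (Finset.mem_insert_of_mem (hmem t))⟩
      · exact ⟨fun e => h2' (by
            rw [show u₂ = x' t from e]
            exact Finset.mem_insert_of_mem (Finset.mem_insert_of_mem (hmem t))),
          h2'' _ (Finset.mem_insert_of_mem (Finset.mem_insert_of_mem (hmem t)))⟩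
    have h10 : u₁ ≠ u₀ ∧ u₁ ≠ bar u₀ :=
      ⟨fun e => h1' (by rw [e]; simp), h1'' _ (by simp)⟩
    have h20 : u₂ ≠ u₀ ∧ u₂ ≠ bar u₀ :=
      ⟨fun e => h2' (by rw [e]; simp), h2'' _ (by simp)⟩
    have h21 : u₂ ≠ u₁ ∧ u₂ ≠ bar u₁ :=
      ⟨fun e => h2' (by rw [e]; simp), h2'' _ (by simp)⟩
    have hsym : ∀ y z : X, y ≠ z ∧ y ≠ bar z → z ≠ y ∧ z ≠ bar y := fun y z h =>
      ⟨h.1.symm, fun e => h.2 (by rw [e, hbb])⟩
    have huD : Dist bar u := by
      intro s t hst
      fin_cases s <;> fin_cases t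
      · exact absurd rfl hst
      · exact hsym _ _ h10
      · exact hsym _ _ h20
      · exact h10
      · exact absurd rfl hst
      · exact hsym _ _ h21
      · exact h20
      · exact h21
      · exact absurd rfl hst
    refine ⟨fun s => if β (x' s) = i ∧ τ s = s then x' s else u s, ?_, ?_, ?_⟩
    · intro s
      dsimp only
      split_ifs with h3
      · exact h3.1
      · exact hui s
    · intro s t hst
      dsimp only
      split_ifs with h3 h4 h4
      · refine ⟨fun e => hst ?_, hx' s t⟩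
        rw [← h3.2, ← h4.2]
        exact hττ s t e
      · exact hsym _ _ (hux t s)
      · exact hux s t
      · exact huD s t hst
    · intro t ht
      have h3 : β (x' (τ t)) = i ∧ τ (τ t) = τ t := ⟨by rw [hτ, ht], hττ _ _ (hτ t)⟩
      dsimp only
      rw [if_pos h3, hτ]
  choose a ha1 ha2 ha3 using ha
  have hσ : ∀ i, ∃ σ : G, (∀ t, σ • a i t = c i (t + r)) ∧ ∀ z, β z ≠ i → σ • z = z := by
    intro i
    refine hT i (a i) (fun t => c i (t + r)) (ha1 i) (fun t => hc1 i _) (ha2 i) ?_
    intro s t hst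
    exact hc2 i _ _ fun e => hst (add_right_cancel e)
  choose σ hσ1 hσ2 using hσ
  obtain ⟨ν, hν⟩ : ∃ ν : G, ∀ z, ν • z = σ (β z) • z := by
    have key : ∀ s : Finset I, ∃ ν : G, ∀ z, ν • z = if β z ∈ s then σ (β z) • z else z := by
      intro s
      induction s using Finset.induction_on with
      | empty => exact ⟨1, fun z => by simp⟩
      | insert i s his ih =>
        obtain ⟨ν, hν⟩ := ih
        refine ⟨σ i * ν, fun z => ?_⟩
        rw [mul_smul, hν]
        by_cases h1 : β z = i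
        · have h2 : β z ∉ s := by rw [h1]; exact his
          rw [if_neg h2, if_pos (by rw [h1]; exact Finset.mem_insert_self _ _), h1]
        · by_cases h2 : β z ∈ s
          · rw [if_pos h2, if_pos (Finset.mem_insert_of_mem h2)]
            exact hσ2 i _ (by rw [hβG]; exact h1)
          · rw [if_neg h2, if_neg (by
              rw [Finset.mem_insert]
              rintro (h3 | h3)
              · exact h1 h3
              · exact h2 h3)]
            exact hσ2 i z h1
    obtain ⟨ν, hν⟩ := key Finset.univ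
    exact ⟨ν, fun z => by rw [hν, if_pos (Finset.mem_univ _)]⟩
  have hνx : ∀ t, ν • x' t = c (β (x' t)) (τ t + r) := by
    intro t
    rw [hν]
    have h1 := hσ1 (β (x' t)) (τ t)
    rw [ha3 _ t rfl] at h1
    exact h1
  have h0 : ∀ t, 0 ≤ w (ν • x' t) := fun t => by rw [hνx]; exact hc3 _ _
  have key := t_AVG G X I bar β g hbb hne hcomm hβbar (fun x => hcard (β x)) (by omega) hflip w hw
    n x hx B hB ν (h0 0) (h0 1) (h0 2)
  rw [Fin.sum_univ_three, ← hνx, ← hνx, ← hνx] at hr
  have e0 : x' 0 = x 0 := rfl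
  have e1 : x' 1 = x 1 := rfl
  have e2 : x' 2 = x 2 := rfl
  rw [e0, e1, e2] at hr
  linarith

end Pool.Agent.J4H9.BF
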