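import Mathlib
import Pool.Agent.J4H9.BF.Blk
import Pool.Agent.J4H9.BF.Plc

/-!
# Relations of odd length between the roots of several Weil polynomials and an integral number
-/

set_option autoImplicit false
set_option linter.unusedSectionVars false

namespace Pool.Agent.J4H9.BF

open Polynomial Pool.Agent.H925R2 Pool.Agent.H485R3 Pool.Agent.W484.BB Pool.Agent.W521.Frob
  Pool.Agent.W521.Criterion Pool.Agent.W484.AA Pool.Agent.J4H9.Gal Pool.Agent.J4H9.Alg

section

variable {n : ℕ} {q r g : ℕ} {h : Fin n → ℤ[X]} (hq : q ≠ 0) (hm : ∀ i, (h i).Monic)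

section

variable (L : Type) [Field L] [NumberField L]

/-- The index of a root. -/
noncomputable def idx (x : Rt q h L) : Fin n := Classical.choose x.2

theorem idx_spec (x : Rt q h L) : aeval (x : L) (weil q (h (idx L x))) = 0 :=
  Classical.choose_spec x.2

include hq hm in
theorem idx_eq (hdeg : ∀ i, (h i).natDegree ≤ g) (hgr : g < 2 * r) (hgood : GoodFam q r h)
    (j : L →+* ℂ) (x : Rt q h L) (i : Fin n) (hx : aeval (x : L) (weil q (h i)) = 0) :
    idx L x = i := by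
  have key : ∀ k, aeval (x : L) (weil q (h k)) = 0 →
      aeval (j ((x : L) + (q : L) / (x : L))) (h k) = 0 := by
    intro k hk
    exact up_root L j _ _ ((root_iff hq (hm k) (x : L)).1 hk).2
  exact NF.unique_index hm hdeg hgr hgood (key _ (idx_spec L x)) (key i hx)

include hq hm in
theorem card_idx (hdeg : ∀ i, (h i).natDegree ≤ g) (hgr : g < 2 * r) (hgood : GoodFam q r h)
    (j : L →+* ℂ) (i : Fin n) :
    Nat.card {y : Rt q h L // idx L y = i} = Nat.card (Rt q (fun _ : Fin 1 => h i) L) := by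
  refine Nat.card_congr
    { toFun := fun y => ⟨(y.1 : L), 0, ?_⟩
      invFun := fun y => ⟨⟨(y : L), i, ?_⟩, ?_⟩
      left_inv := fun y => ?_
      right_inv := fun y => ?_ }
  · have h1 := idx_spec L y.1
    rw [y.2] at h1
    exact h1
  · obtain ⟨_, hi⟩ := y.2
    exact hi
  · refine idx_eq hq hm L hdeg hgr hgood j _ i ?_
    obtain ⟨_, hi⟩ := y.2
    exact hi
  · exact Subtype.ext (Subtype.ext rfl)
  · exact Subtype.ext rfl

end

section

variable {L : Type} [Field L] [NumberField L] [IsGalois ℚ L] (j : L →+* ℂ)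
  (hL : ∀ i, ∀ z : ℂ, aeval z (weil q (h i)) = 0 → ∃ x : L, j x = z)
  (p : ℕ) [Fact p.Prime] (a : ℕ) (hqp : q = p ^ a) (e : L →ₐ[ℚ] PadicAlgCl p)

include hq hm hqp in
/-- The sum of the deviations of the roots in a relation is at most that of one number. -/
theorem sum_dv_le {s : ℕ} (hs : 0 < s) {ρ : ℂ} (hρ : IsIntegral ℤ ρ)
    (hρn : ‖ρ‖ ^ 2 = (q : ℝ) ^ s) {m N : ℕ} (hN : 0 < N) (x : Fin (2 * m + 3) → L)
    (hxr : ∀ k, ∃ i, aeval (x k) (weil q (h i)) = 0)
    (hrel : ((∏ k, j (x k)) ^ s * ρ) ^ N = (((q : ℂ) ^ s) ^ (m + 2)) ^ N) (σ : L ≃ₐ[ℚ] L) :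
    ∑ k, dv p a e (σ (x k)) ≤ Real.log ((p : ℝ) ^ a) := by
  have hp0 : 0 < p := (Fact.out : p.Prime).pos
  have hx0 : ∀ k, x k ≠ 0 := fun k => by
    obtain ⟨i, hi⟩ := hxr k
    exact root_ne_zero hq (hm i) hi
  have hqL : (q : L) ≠ 0 := by exact_mod_cast hq
  have hqR : (0 : ℝ) < q := by exact_mod_cast Nat.pos_of_ne_zero hq
  have hρ0 : ρ ≠ 0 := by
    rintro rfl
    rw [norm_zero] at hρn
    norm_num at hρn
    have : (0 : ℝ) < (q : ℝ) ^ s := by positivity
    linarith
  -- the power of `ρ` as an element of `L`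
  set R : L := (q : L) ^ (s * (m + 2) * N) / (∏ k, x k) ^ (s * N) with hR
  have hxp : (∏ k, x k) ≠ 0 := Finset.prod_ne_zero_iff.2 fun k _ => hx0 k
  have hjR : j R = ρ ^ N := by
    have hzp : (∏ k, j (x k)) ≠ 0 := Finset.prod_ne_zero_iff.2 fun k _ => by
      rw [Ne, map_eq_zero]
      exact hx0 k
    rw [hR, map_div₀, map_pow, map_pow, map_prod, map_natCast, div_eq_iff (pow_ne_zero _ hzp)]
    have h3 : ((∏ k, j (x k)) ^ s * ρ) ^ N = ρ ^ N * (∏ k, j (x k)) ^ (s * N) := by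
      rw [mul_pow, ← pow_mul, mul_comm]
    rw [← h3, hrel, ← pow_mul, ← pow_mul]
    congr 1
    ring
  have hR0 : R ≠ 0 := div_ne_zero (pow_ne_zero _ hqL) (pow_ne_zero _ hxp)
  have hRint : IsIntegral ℤ R := isIntegral_of_map j R (by rw [hjR]; exact hρ.pow N)
  have hRint' : IsIntegral ℤ ((((p : ℚ) ^ (a * (s * N)) : ℚ) : L) / R) := by
    apply isIntegral_of_map j
    rw [map_div₀, map_ratCast, hjR]
    have h1 : ((((p : ℚ) ^ (a * (s * N)) : ℚ)) : ℂ) / ρ ^ N = ((starRingEnd ℂ) ρ) ^ N := by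
      have hcc : (starRingEnd ℂ) ρ * ρ = ((p : ℂ) ^ a) ^ s := by
        rw [mul_comm, Complex.mul_conj, Complex.normSq_eq_norm_sq, hρn, hqp]
        push_cast
        rfl
      rw [div_eq_iff (pow_ne_zero _ hρ0), ← mul_pow, hcc]
      push_cast
      rw [← pow_mul, ← pow_mul]
    rw [h1]
    exact (hρ.map (Complex.conjAe.toAlgHom.restrictScalars ℤ)).pow N
  have hsN : (0 : ℝ) < (s : ℝ) * N := by positivity
  have hlogq : Real.log ‖(((p : ℚ) ^ a : ℚ) : PadicAlgCl p)‖ = - Real.log ((p : ℝ) ^ a) := by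
    rw [norm_pow_cast, Real.log_inv]
  have h1 := abs_dev_le p (a * (s * N)) (e (σ R)) (by
    rw [Ne, map_eq_zero, map_eq_zero]; exact hR0)
    ((hRint.map (σ.toAlgHom.restrictScalars ℤ)).map (e.restrictScalars ℤ)) (by
      have h4 := (hRint'.map (σ.toAlgHom.restrictScalars ℤ)).map (e.restrictScalars ℤ)
      have h5 : (e.restrictScalars ℤ) ((σ.toAlgHom.restrictScalars ℤ)
          ((((p : ℚ) ^ (a * (s * N)) : ℚ) : L) / R)) =
          (((p : ℚ) ^ (a * (s * N)) : ℚ) : PadicAlgCl p) / e (σ R) := by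
        change e (σ ((((p : ℚ) ^ (a * (s * N)) : ℚ) : L) / R)) = _
        rw [map_div₀, map_div₀, map_ratCast, map_ratCast]
      rw [h5] at h4
      exact h4)
  have h2 : Real.log ‖e (σ R)‖ = (s * (m + 2) * N : ℝ) * (- Real.log ((p : ℝ) ^ a)) -
      (s * N : ℝ) * ∑ k, Real.log ‖e (σ (x k))‖ := by
    have h3 : e (σ R) = (((p : ℚ) ^ a : ℚ) : PadicAlgCl p) ^ (s * (m + 2) * N) /
        (∏ k, e (σ (x k))) ^ (s * N) := by
      rw [hR, map_div₀, map_div₀, map_pow, map_pow, map_pow, map_pow, map_prod, map_prod,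
        map_natCast, map_natCast, hqp]
      push_cast
      rfl
    have hne : ∀ k, ‖e (σ (x k))‖ ≠ 0 := by
      intro k
      rw [norm_ne_zero_iff, Ne, map_eq_zero, map_eq_zero]
      exact hx0 k
    have hpne : ‖(((p : ℚ) ^ a : ℚ) : PadicAlgCl p)‖ ≠ 0 := by
      rw [norm_pow_cast]
      have : (0 : ℝ) < p := by exact_mod_cast hp0
      positivity
    rw [h3, norm_div, norm_pow, norm_pow, norm_prod, Real.log_div (pow_ne_zero _ hpne)
      (pow_ne_zero _ (Finset.prod_ne_zero_iff.2 fun k _ => hne k)), Real.log_pow, Real.log_pow,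
      Real.log_prod (fun k _ => hne k), hlogq]
    push_cast
    ring
  have h3 : ∑ k, dv p a e (σ (x k)) = 2 * ∑ k, Real.log ‖e (σ (x k))‖ +
      (2 * m + 3) * Real.log ((p : ℝ) ^ a) := by
    have h4 : ∀ k, dv p a e (σ (x k)) = 2 * Real.log ‖e (σ (x k))‖ + Real.log ((p : ℝ) ^ a) := by
      intro k
      unfold dv dev
      rw [hlogq]
      ring
    rw [Finset.sum_congr rfl fun k _ => h4 k, Finset.sum_add_distrib, ← Finset.mul_sum,
      Finset.sum_const, Finset.card_univ, Fintype.card_fin, nsmul_eq_mul]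
    push_cast
    ring
  have hpow : Real.log ((p : ℝ) ^ (a * (s * N))) = (s * N : ℝ) * Real.log ((p : ℝ) ^ a) := by
    rw [pow_mul, Real.log_pow]
    push_cast
    rfl
  have h4 : dev p ((p : ℚ) ^ (a * (s * N))) (e (σ R)) =
      - ((s * N : ℝ) * ∑ k, dv p a e (σ (x k))) := by
    unfold dev
    rw [norm_pow_cast, Real.log_inv, h2, h3, hpow]
    ring
  rw [h4, abs_neg, hpow] at h1
  have h5 := (abs_le.1 h1).2
  exact le_of_mul_le_mul_left h5 hsN

include hq hm hL hqp in
/-- **Three roots with large deviations.** -/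
theorem top_three (t_TOP : S_TOP) (i : Fin n)
    (hirr : Irreducible ((weil q (h i)).map (Int.castRingHom ℚ)))
    (hdeg : (weil q (h i)).natDegree = 2 * g) (hthree : Three p a g (weil q (h i))) :
    ∃ c : Fin 3 → L, (∀ t, aeval (c t) (weil q (h i)) = 0) ∧
      (∀ s t, s ≠ t → c s ≠ c t ∧ c s ≠ q / c t) ∧
      Real.log ((p : ℝ) ^ a) < ∑ t, |dv p a e (c t)| := by
  classical
  have hmw : (weil q (h i)).Monic := weil_monic q (hm i)
  have hsplit : ((weil q (h i)).map (algebraMap ℤ L)).Splits := by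
    refine Splits.of_splits_map j (IsAlgClosed.splits _) ?_
    intro z hz
    have h1 := (mem_roots'.1 hz).2
    have e1 : ((weil q (h i)).map (algebraMap ℤ L)).map j = (weil q (h i)).map (algebraMap ℤ ℂ) := by
      rw [Polynomial.map_map]
      congr 1
      exact RingHom.ext_int _ _
    rw [e1, IsRoot.def, eval_map] at h1
    exact hL i z h1
  have hsep : ((weil q (h i)).map (algebraMap ℤ L)).Separable := by
    have h2 := hirr.separable.map (f := algebraMap ℚ L)
    rw [Polynomial.map_map, RingHom.ext_int ((algebraMap ℚ L).comp _) (algebraMap ℤ L)] at h2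
    exact h2
  set M := ((weil q (h i)).map (algebraMap ℤ L)).roots with hMdef
  have hMnd : M.Nodup := nodup_roots hsep
  have hM : (weil q (h i)).map (algebraMap ℤ L) = (M.map (fun a => X - C a)).prod := by
    rw [hMdef]
    have := hsplit.eq_prod_roots
    rw [(hmw.map (algebraMap ℤ L)).leadingCoeff, C_1, one_mul] at this
    exact this
  have hMcard : M.card = 2 * g := by
    rw [hMdef, ← hsplit.natDegree_eq_card_roots, hmw.natDegree_map, hdeg]
  have hMroot : ∀ y ∈ M, aeval y (weil q (h i)) = 0 := by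
    intro y hy
    have h1 := (mem_roots'.1 hy).2
    rw [IsRoot.def, eval_map] at h1
    exact h1
  have hnorm : ∀ z ∈ M, ‖e z‖ ≤ 1 := by
    intro z hz
    apply norm_le_one_of_isIntegral
    have h4 : IsIntegral ℤ z := ⟨weil q (h i), hmw, hMroot z hz⟩
    exact h4.map (e.restrictScalars ℤ)
  have hne0 : ∀ z ∈ M, z ≠ 0 := fun z hz => root_ne_zero hq (hm i) (hMroot z hz)
  obtain ⟨T, hTM, hT3, hTlog⟩ := t_TOP p a g (weil q (h i)) (M.map (fun y => e y)) (by
      have h4 := congrArg (fun f => f.map (e : L →+* PadicAlgCl p)) hM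
      simp only [Polynomial.map_map, Polynomial.map_multiset_prod, Multiset.map_map] at h4
      rw [RingHom.ext_int (algebraMap ℤ (PadicAlgCl p))
        ((e : L →+* PadicAlgCl p).comp (algebraMap ℤ L)), h4, Multiset.map_map]
      congr 1
      refine Multiset.map_congr rfl fun y _ => ?_
      simp) (by
      intro y hy
      obtain ⟨z, hz, rfl⟩ := Multiset.mem_map.1 hy
      exact ⟨by rw [Ne, map_eq_zero]; exact hne0 z hz, hnorm z hz⟩)
    (by rw [Multiset.card_map, hMcard]) hthree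
  obtain ⟨y0, y1, y2, rfl⟩ := Multiset.card_eq_three.1 hT3
  have hnd := Multiset.nodup_of_le hTM (hMnd.map e.injective)
  have hmem : ∀ y ∈ ({y0, y1, y2} : Multiset (PadicAlgCl p)), ∃ z ∈ M, e z = y := fun y hy =>
    Multiset.mem_map.1 (Multiset.mem_of_le hTM hy)
  obtain ⟨z0, hz0, rfl⟩ := hmem y0 (by simp)
  obtain ⟨z1, hz1, rfl⟩ := hmem y1 (by simp)
  obtain ⟨z2, hz2, rfl⟩ := hmem y2 (by simp)
  have h01 : z0 ≠ z1 := by
    rintro rfl
    simp at hnd
  have h02 : z0 ≠ z2 := by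
    rintro rfl
    simp at hnd
  have h12 : z1 ≠ z2 := by
    rintro rfl
    simp at hnd
  have hsum : Real.log ((p : ℝ) ^ a) < dv p a e z0 + dv p a e z1 + dv p a e z2 := by
    have h1 : (({e z0, e z1, e z2} : Multiset (PadicAlgCl p)).map
        (fun y => dev p ((p : ℚ) ^ a) y)).sum = dv p a e z0 + dv p a e z1 + dv p a e z2 := by
      simp [dv, add_assoc]
    rw [← h1]
    exact hTlog
  have hle : ∀ z ∈ M, dv p a e z ≤ Real.log ((p : ℝ) ^ a) := by
    intro z hz
    unfold dv dev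
    rw [norm_pow_cast, Real.log_inv]
    have h1 : Real.log ‖e z‖ ≤ 0 := Real.log_nonpos (norm_nonneg _) (hnorm z hz)
    linarith
  have hpair : ∀ u ∈ M, ∀ v ∈ M, ∀ t ∈ M,
      Real.log ((p : ℝ) ^ a) < dv p a e u + dv p a e v + dv p a e t → u ≠ (q : L) / v := by
    intro u hu v hv t ht h1 h2
    rw [h2, dv_inv p a hqp e v (hne0 v hv)] at h1
    have := hle t ht
    linarith
  have n01 : z0 ≠ q / z1 := hpair z0 hz0 z1 hz1 z2 hz2 hsum
  have n02 : z0 ≠ q / z2 := hpair z0 hz0 z2 hz2 z1 hz1 (by linarith)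
  have n10 : z1 ≠ q / z0 := hpair z1 hz1 z0 hz0 z2 hz2 (by linarith)
  have n12 : z1 ≠ q / z2 := hpair z1 hz1 z2 hz2 z0 hz0 (by linarith)
  have n20 : z2 ≠ q / z0 := hpair z2 hz2 z0 hz0 z1 hz1 (by linarith)
  have n21 : z2 ≠ q / z1 := hpair z2 hz2 z1 hz1 z0 hz0 (by linarith)
  refine ⟨![z0, z1, z2], ?_, ?_, ?_⟩
  · intro t
    fin_cases t
    · exact hMroot _ hz0
    · exact hMroot _ hz1
    · exact hMroot _ hz2
  · intro s t hst
    fin_cases s <;> fin_cases t
    · exact absurd rfl hst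
    · exact ⟨h01, n01⟩
    · exact ⟨h02, n02⟩
    · exact ⟨h01.symm, n10⟩
    · exact absurd rfl hst
    · exact ⟨h12, n12⟩
    · exact ⟨h02.symm, n20⟩
    · exact ⟨h12.symm, n21⟩
    · exact absurd rfl hst
  · rw [Fin.sum_univ_three]
    refine lt_of_lt_of_le hsum ?_
    exact add_le_add (add_le_add (le_abs_self _) (le_abs_self _)) (le_abs_self _)

end

theorem odd_rel_top (t_JOR : S_JOR) (t_TRI : S_TRI) (t_N3 : S_N3) (t_CMT : S_CMT) (t_DCN : S_DCN)
    (t_K3 : S_K3) (t_AVG : S_AVG) (t_TOP : S_TOP)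
    (p : ℕ) [Fact p.Prime] (a : ℕ) (hqp : q = p ^ a)
    (hm : ∀ i, (h i).Monic) (hdeg : ∀ i, (h i).natDegree = g) (hr : r.Prime)
    (hr2 : r ≠ 2) (hgr : g < 2 * r) (hrg : r + 5 ≤ g) (hg : 10 ≤ g) (hgood : GoodFam q r h)
    (hirr : ∀ i, Irreducible ((weil q (h i)).map (Int.castRingHom ℚ)))
    (hnorm : ∀ i, ∀ z : ℂ, aeval z (weil q (h i)) = 0 → ‖z‖ ^ 2 = q)
    (hthree : ∀ i, Three p a g (weil q (h i))) :
    OddRelF q fun i => weil q (h i) := by
  classical
  intro s hs ρ hρ hρn m N hN z hz hrel hno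
  have hp0 : 0 < p := (Fact.out : p.Prime).pos
  have hq : q ≠ 0 := by rw [hqp]; exact pow_ne_zero _ hp0.ne'
  have hdeg' : ∀ i, (h i).natDegree ≤ g := fun i => (hdeg i).le
  obtain ⟨L, _, _, _, j, hL⟩ := exists_field q h hm
  have hcard : ∀ i, Nat.card (Rt q (fun _ : Fin 1 => h i) L) = 2 * g := fun i =>
    card_rt (h := fun _ : Fin 1 => h i) (fun _ => hm i) L j (fun _ => hL i) (hirr i)
      (by rw [weil_natDegree q (hm i), hdeg i])
  have hdown : ∀ (i : Fin n) (x : L), aeval (j x) (weil q (h i)) = 0 →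
      aeval x (weil q (h i)) = 0 := by
    intro i x hx
    apply j.injective
    have h2 := Polynomial.hom_eval₂ (weil q (h i)) (algebraMap ℤ L) j x
    rw [RingHom.ext_int (j.comp (algebraMap ℤ L)) (algebraMap ℤ ℂ)] at h2
    rw [map_zero]
    exact h2.trans hx
  choose ik hik using hz
  choose x hx using fun k => hL (ik k) (z k) (hik k)
  have hxr : ∀ k, aeval (x k) (weil q (h (ik k))) = 0 := fun k => hdown _ _ (by
    rw [hx]; exact hik k)
  have hx0 : ∀ k, x k ≠ 0 := fun k => root_ne_zero hq (hm _) (hxr k)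
  let e : L →ₐ[ℚ] PadicAlgCl p := IsAlgClosed.lift
  have hnoL : ∀ k l, x l ≠ q / x k := by
    intro k l hkl
    by_cases hk : k = l
    · subst hk
      have h2 := ne_conj_C hq hm hdeg' hr hr2 hgr hgood (z k) ⟨ik k, hik k⟩
      apply h2
      have h3 := congrArg j hkl
      rw [map_div₀, map_natCast, hx] at h3
      exact h3
    · apply hno k l hk
      have h3 := congrArg j hkl
      rw [map_div₀, map_natCast, hx, hx] at h3
      have hz0 : z k ≠ 0 := by
        rw [← hx k, Ne, map_eq_zero]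
        exact hx0 k
      rw [h3]
      field_simp
  have hB : ∀ σ : L ≃ₐ[ℚ] L, ∑ k, dv p a e (σ (x k)) ≤ Real.log ((p : ℝ) ^ a) :=
    sum_dv_le hq hm j p a hqp e hs hρ hρn hN x (fun k => ⟨_, hxr k⟩) (by
      rw [Finset.prod_congr rfl fun k _ => hx k]
      exact hrel)
  -- the set of all roots
  have hfin : Finite (Rt q h L) := NoRel.finite_Rt hm
  have hbarne : ∀ u : Rt q h L, bar hq hm u ≠ u := by
    intro u hu
    have h1 := congrArg (fun y : Rt q h L => j (y : L)) hu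
    have h2 : j ((q : L) / (u : L)) = j (u : L) := h1
    rw [map_div₀, map_natCast] at h2
    exact ne_conj_C hq hm hdeg' hr hr2 hgr hgood (j (u : L))
      ⟨idx L u, up_root L j _ _ (idx_spec L u)⟩ h2.symm
  have hidx : ∀ (u : Rt q h L) (i : Fin n), aeval (u : L) (weil q (h i)) = 0 → idx L u = i :=
    fun u i hu => idx_eq hq hm L hdeg' hgr hgood j u i hu
  refine plc t_AVG (G := L ≃ₐ[ℚ] L) (bar hq hm) (idx L) g (bar_bar hq hm) hbarne
    (bar_smul hq hm) ?_ ?_ ?_ (by omega) ?_ ?_ (fun u => dv p a e (u : L)) ?_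
    (Real.log ((p : ℝ) ^ a)) ?_ (2 * m) (fun k => ⟨x k, ik k, hxr k⟩) ?_ ?_
  · intro u
    exact hidx _ _ (root_conj hq (hm _) (idx_spec L u))
  · intro σ u
    exact hidx _ _ (aeval_smul _ σ _ (idx_spec L u))
  · intro i
    rw [card_idx hq hm L hdeg' hgr hgood j i]
    exact hcard i
  · intro u v huv hvu hvu'
    obtain ⟨ν, h1, h2, h3⟩ := flips_blk hq hm hdeg' hr hr2 hgr hgood L j hL t_JOR t_TRI t_N3
      t_CMT t_DCN hrg hg (idx L u) (hcard _) hnorm (u : L) (v : L) (idx_spec L u) (by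
        rw [huv]; exact idx_spec L v) (fun e => hvu (Subtype.ext e))
        (fun e => hvu' (Subtype.ext e))
    refine ⟨ν, Subtype.ext h1, Subtype.ext h2, fun t h4 h5 h6 h7 => Subtype.ext ?_⟩
    exact h3 (idx L t) (t : L) (idx_spec L t) (fun e => h4 (Subtype.ext e))
      (fun e => h5 (Subtype.ext e)) (fun e => h6 (Subtype.ext e)) (fun e => h7 (Subtype.ext e))
  · intro i b c hb hc hDb hDc
    have hr' : ∀ (d : Fin 3 → Rt q h L), (∀ t, idx L (d t) = i) → ∀ t,
        aeval ((d t : Rt q h L) : L) (weil q (h i)) = 0 := by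
      intro d hd t
      have h1 := idx_spec L (d t)
      rw [hd t] at h1
      exact h1
    obtain ⟨σ, h1, h2⟩ := trans_blk hq hm hdeg' hr hr2 hgr hgood L j hL t_JOR t_TRI t_N3 t_CMT
      t_DCN t_K3 hrg hg i (hcard i) hnorm (fun t => ((b t : Rt q h L) : L))
      (fun t => ((c t : Rt q h L) : L)) (hr' b hb) (hr' c hc)
      (fun s t hst => ⟨fun e => (hDb s t hst).1 (Subtype.ext e),
        fun e => (hDb s t hst).2 (Subtype.ext e)⟩)
      (fun s t hst => ⟨fun e => (hDc s t hst).1 (Subtype.ext e),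
        fun e => (hDc s t hst).2 (Subtype.ext e)⟩)
    exact ⟨σ, fun t => Subtype.ext (h1 t), fun u hu => Subtype.ext (h2 _ hu _ (idx_spec L u))⟩
  · intro u
    have hu0 : (u : L) ≠ 0 := root_ne_zero hq (hm _) (idx_spec L u)
    change dv p a e ((q : L) / (u : L)) = _
    exact dv_inv p a hqp e _ hu0
  · intro i
    obtain ⟨c, h1, h2, h3⟩ := top_three hq hm j hL p a hqp e t_TOP i (hirr i)
      (by rw [weil_natDegree q (hm i), hdeg i]) (hthree i)
    refine ⟨fun t => ⟨c t, i, h1 t⟩, fun t => hidx _ _ (h1 t), ?_, h3⟩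
    intro s t hst
    exact ⟨fun e => (h2 s t hst).1 (congrArg (fun u : Rt q h L => (u : L)) e),
      fun e => (h2 s t hst).2 (congrArg (fun u : Rt q h L => (u : L)) e)⟩
  · intro k l hkl
    exact hnoL l k (congrArg (fun u : Rt q h L => (u : L)) hkl)
  · intro ν
    exact hB ν

end

end Pool.Agent.J4H9.BF
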