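import Mathlib
import Pool.Agent.J4H9.BF.FamTop
import Pool.Agent.J4H9.NIrr

/-!
# The formula of Beilinson and Bloch over a fixed field in the Newton strata
-/

set_option autoImplicit false

namespace Pool.Agent.J4H9.BF

open Polynomial Filter Pool.Agent.W521.Frob Pool.Agent.W521.Descent Pool.Agent.W484.AA
  Pool.Agent.J4H9.Alg Pool.Agent.J4H9.NGauss Pool.Agent.J4H9.NStm Pool.Agent.J4H9.NAll

theorem bb_of_fam (t_JOR : S_JOR) (t_TRI : S_TRI) (t_N3 : S_N3) (t_CMT : S_CMT) (t_DCN : S_DCN)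
    (t_K3 : S_K3) (t_AVG : S_AVG) (t_TOP : S_TOP) (t_FORMF : S_FORMF) {q g' b m : ℕ}
    {f : Fin m → ℤ[X]} (hg3 : 3 ≤ g') (hf : FamOK5 q g' b f) {g p a : ℕ} (hp : p.Prime)
    (ha : 0 < a) (hqp : q = p ^ a) (hg : 10 ≤ g)
    (hw : ∀ i, f i ∈ weilPolys q g) (hthree : ∀ i, Three p a g (f i)) :
    BeilinsonBlochFormula q f := by
  have hpF : Fact p.Prime := ⟨hp⟩
  have hq0 : 0 < q := by rw [hqp]; exact Nat.pow_pos hp.pos
  refine t_FORMF q ((isPrimePow_nat_iff _).2 ⟨p, a, hp, ha, hqp.symm⟩) (Fin m) f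
    (fun i => (hw i).2.2.2) ?_
  obtain ⟨r, h, hr, hr2, hgr, -, hrg, hmon, hgood, hnorm, rfl⟩ := hf
  rcases isEmpty_or_nonempty (Fin m) with hI | hI
  · intro s hs ρ hρ hρn m' N hN z hz hrel hno
    obtain ⟨i, -⟩ := hz ⟨0, by omega⟩
    exact hI.elim i
  · obtain ⟨i₀⟩ := hI
    have hgg : g' = g := by
      have h1 := (hw i₀).2.1
      rw [weil_natDegree q (hmon i₀).1, (hmon i₀).2] at h1
      omega
    subst hgg
    rcases hrg with hrg | hrg
    · exact hrg.elim i₀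
    · exact odd_rel_top t_JOR t_TRI t_N3 t_CMT t_DCN t_K3 t_AVG t_TOP p a hqp
        (fun i => (hmon i).1) (fun i => (hmon i).2) hr hr2 hgr hrg hg hgood
        (fun i => NIrr.irreducible_weil hq0 (hmon i).1 (hmon i).2 hg3 (hgood.1 i) (hnorm i))
        hnorm hthree

/-- If the sum of the three smallest slopes of the given polygon is less than one, all the
polynomials with this Newton polygon have the property `Three`. -/
theorem three_of_through {p a g : ℕ} (hp : p.Prime) (ha : 0 < a) (hg : 3 ≤ g) {lam : ℕ → ℝ}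
    (hs : Slopes lam) {E : Finset ℕ}
    (hE : ∀ j ∈ E, 0 < j ∧ j ≤ g ∧ ∃ n : ℕ, (a : ℝ) * ∑ i ∈ Finset.range j, lam i = n)
    (hbr : ∀ j, 0 < j → j < g → lam (j - 1) < lam j → j ∈ E) (hgE : g ∈ E)
    (h3 : lam 0 + lam 1 + lam 2 < 1) {f : ℤ[X]} (hf : f ∈ newtonThrough p a lam g E) :
    Three p a g f := by
  classical
  have hmono : ∀ i, lam i ≤ lam (i + 1) := fun i => hs.1 (Nat.le_succ i)
  -- the right end point
  have hex : ∃ j, 3 ≤ j ∧ (j = g ∨ j < g ∧ lam (j - 1) < lam j) := ⟨g, hg, Or.inl rfl⟩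
  obtain ⟨s, hs3, hsE, hsg, hsc⟩ : ∃ s, 3 ≤ s ∧ s ∈ E ∧ s ≤ g ∧ ∀ i, 2 ≤ i → i < s →
      lam i = lam 2 := by
    obtain ⟨h4, h5⟩ := Nat.find_spec hex
    have hle : Nat.find hex ≤ g := Nat.find_min' hex ⟨hg, Or.inl rfl⟩
    refine ⟨Nat.find hex, h4, ?_, hle, ?_⟩
    · rcases h5 with h6 | ⟨h6, h7⟩
      · rw [h6]; exact hgE
      · exact hbr _ (by omega) h6 h7
    · intro i hi
      induction i, hi using Nat.le_induction with
      | base => intro _; rfl
      | succ i hi ih =>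
        intro hi'
        have h6 := Nat.find_min hex hi'
        have h7 : ¬ lam (i + 1 - 1) < lam (i + 1) := fun h8 =>
          h6 ⟨by omega, Or.inr ⟨by omega, h8⟩⟩
        rw [show i + 1 - 1 = i by omega] at h7
        have h8 := hmono i
        have h9 : lam (i + 1) = lam i := le_antisymm (not_lt.1 h7) h8
        rw [h9]
        exact ih (by omega)
  -- the left end point
  obtain ⟨r, u, hr3, hru, hrp, hrc⟩ : ∃ r u : ℕ, r < 3 ∧
      (a : ℝ) * ∑ i ∈ Finset.range r, lam i = u ∧ ¬ (p : ℤ) ^ (u + 1) ∣ f.coeff (2 * g - r) ∧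
      lam 0 + lam 1 + lam 2 = ∑ i ∈ Finset.range r, lam i + (3 - r) * lam 2 := by
    have hmem : ∀ r ∈ E, ∃ u : ℕ, (a : ℝ) * ∑ i ∈ Finset.range r, lam i = u ∧
        ¬ (p : ℤ) ^ (u + 1) ∣ f.coeff (2 * g - r) := by
      intro r hr
      obtain ⟨-, -, n, hn⟩ := hE r hr
      refine ⟨n, hn, ?_⟩
      have h1 := hf.2 r hr
      rw [hn, Nat.ceil_natCast] at h1
      exact h1
    by_cases h4 : lam 1 < lam 2
    · obtain ⟨u, h5, h6⟩ := hmem 2 (hbr 2 (by omega) (by omega) h4)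
      refine ⟨2, u, by omega, h5, h6, ?_⟩
      simp only [Finset.sum_range_succ, Finset.sum_range_zero]
      push_cast
      ring
    · have h12 : lam 1 = lam 2 := le_antisymm (hmono 1) (not_lt.1 h4)
      by_cases h5 : lam 0 < lam 1
      · obtain ⟨u, h6, h7⟩ := hmem 1 (hbr 1 (by omega) (by omega) h5)
        refine ⟨1, u, by omega, h6, h7, ?_⟩
        simp only [Finset.sum_range_succ, Finset.sum_range_zero]
        push_cast
        linarith
      · have h01 : lam 0 = lam 1 := le_antisymm (hmono 0) (not_lt.1 h5)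
        refine ⟨0, 0, by omega, by simp, ?_, ?_⟩
        · have h6 : f.coeff (2 * g - 0) = 1 := by
            have h7 := hf.1.1.1
            have h8 := hf.1.1.2.1
            rw [Nat.sub_zero, ← h8]
            exact h7
          rw [h6, zero_add, pow_one]
          intro h7
          have h8 := Int.eq_one_of_dvd_one (Int.natCast_nonneg p) h7
          have h9 : p = 1 := by exact_mod_cast h8
          exact hp.one_lt.ne' h9
        · simp only [Finset.sum_range_zero]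
          push_cast
          linarith
  obtain ⟨-, -, v, hv⟩ := hE s hsE
  have hvp : ¬ (p : ℤ) ^ (v + 1) ∣ f.coeff (2 * g - s) := by
    have h1 := hf.2 s hsE
    rw [hv, Nat.ceil_natCast] at h1
    exact h1
  have hHs : ∑ i ∈ Finset.range s, lam i = lam 0 + lam 1 + lam 2 + ((s : ℝ) - 3) * lam 2 := by
    have key : ∀ t, 3 ≤ t → t ≤ s → ∑ i ∈ Finset.range t, lam i =
        lam 0 + lam 1 + lam 2 + ((t : ℝ) - 3) * lam 2 := by
      intro t ht
      induction t, ht using Nat.le_induction with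
      | base =>
        intro _
        simp only [Finset.sum_range_succ, Finset.sum_range_zero]
        push_cast
        ring
      | succ t ht ih =>
        intro hts
        rw [Finset.sum_range_succ, ih (by omega), hsc t (by omega) (by omega)]
        push_cast
        ring
    exact key s hs3 le_rfl
  refine ⟨r, s, u, v, hr3, hs3, by omega, hrp, hvp, ?_⟩
  have haR : (0 : ℝ) < a := by exact_mod_cast ha
  have hrsR : (0 : ℝ) < (s : ℝ) - r := by
    have : r < s := by omega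
    have : (r : ℝ) < s := by exact_mod_cast this
    linarith
  have hreal : (((s - 3) * u + (3 - r) * v : ℕ) : ℝ) < (((s - r) * a : ℕ) : ℝ) := by
    rw [Nat.cast_add, Nat.cast_mul, Nat.cast_mul, Nat.cast_mul, Nat.cast_sub hs3,
      Nat.cast_sub hr3.le, Nat.cast_sub (by omega : r ≤ s), ← hru, ← hv, hHs]
    set H := ∑ i ∈ Finset.range r, lam i
    have h5 : ((s : ℝ) - r) * a * (lam 0 + lam 1 + lam 2) < ((s : ℝ) - r) * a :=
      mul_lt_of_lt_one_right (by positivity) h3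
    have h6 : ((s : ℝ) - (3 : ℕ)) * (a * H) + ((3 : ℕ) - (r : ℝ)) *
        (a * (lam 0 + lam 1 + lam 2 + ((s : ℝ) - 3) * lam 2)) =
        ((s : ℝ) - r) * a * (lam 0 + lam 1 + lam 2) := by
      have h7 : H = lam 0 + lam 1 + lam 2 - (3 - r) * lam 2 := by linarith
      rw [h7]
      push_cast
      ring
    linarith
  exact_mod_cast hreal

theorem main_top (t_JOR : S_JOR) (t_TRI : S_TRI) (t_N3 : S_N3) (t_CMT : S_CMT) (t_DCN : S_DCN)
    (t_K3 : S_K3) (t_AVG : S_AVG) (t_TOP : S_TOP) (t_FORMF : S_FORMF) {μ ε : ℝ} (hμ : 0 < μ)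
    (hμ1 : μ ≤ 1 / 2) (hε : 0 < ε) (hε1 : ε < μ / 4) :
    ∃ g₀ : ℕ, ∀ g : ℕ, g₀ ≤ g → ∀ p a : ℕ, p.Prime → 0 < a → ∀ lam : ℕ → ℝ, Slopes lam →
      ∑ i ∈ Finset.range g, lam i ≤ (1 / 2 - μ) * g →
      ∀ E : Finset ℕ, (∀ j ∈ E, 0 < j ∧ j ≤ g ∧
        ∃ n : ℕ, (a : ℝ) * ∑ i ∈ Finset.range j, lam i = n) →
      ((newtonAbove p a lam g).Finite ∧
        (64 ≤ ((p ^ a : ℕ) : ℝ) ^ (μ / 2) → 0 < (newtonThrough p a lam g E).ncard) ∧
        ((∀ j, 0 < j → j < g → lam (j - 1) < lam j → j ∈ E) → g ∈ E →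
          lam 0 + lam 1 + lam 2 < 1 → ∀ f ∈ newtonThrough p a lam g E, Three p a g f)) ∧
      ∀ (S : Set ℤ[X]) (D : ℝ), S ⊆ newtonAbove p a lam g → (∀ f ∈ S, Three p a g f) → 1 ≤ D →
        ((newtonThrough p a lam g E).ncard : ℝ) ≤ D * S.ncard → ∀ m : ℕ,
        ({f : Fin m → ℤ[X] | (∀ i, f i ∈ S) ∧ ¬ BeilinsonBlochFormula (p ^ a) f}.ncard : ℝ) ≤
          (m : ℝ) ^ 2 * D * 2 ^ E.card * 8 ^ g *
            ((p ^ a : ℕ) : ℝ) ^ (-((μ / 4 - ε) * g)) * (S.ncard : ℝ) ^ m := by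
  obtain ⟨g₀, h⟩ := main_pred5 (κ := 1 / 2) le_rfl (by norm_num) hμ hμ1 hε
    (by linarith : ε < μ * (1 - 1 / 2) / 2) (fun q _ m f => ∀ g p a : ℕ, p.Prime → 0 < a →
      q = p ^ a → 10 ≤ g → (∀ i, f i ∈ weilPolys q g) →
      (∀ i, Three p a g (f i)) → BeilinsonBlochFormula q f)
    (fun q g' b m f _ hg3 hf g p a hp ha hqp hg hw hthree =>
      bb_of_fam t_JOR t_TRI t_N3 t_CMT t_DCN t_K3 t_AVG t_TOP t_FORMF hg3 hf hp ha hqp hg hw
        hthree)
  refine ⟨max g₀ 10, fun g hg p a hp ha lam hs hht E hE => ?_⟩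
  have hg0 : g₀ ≤ g := le_trans (le_max_left _ _) hg
  have hg10 : 10 ≤ g := le_trans (le_max_right _ _) hg
  obtain ⟨⟨h1, h2⟩, h3⟩ := h g hg0 p a hp ha lam hs hht E hE
  refine ⟨⟨h1, h2, fun hbr hgE h4 f hf => three_of_through hp ha (by omega) hs hE hbr hgE h4 hf⟩,
    ?_⟩
  intro S D hS hthree hD hDS m
  have hSfin : S.Finite := h1.subset hS
  refine le_trans ?_ (le_trans (h3 S D hS hD hDS m) (le_of_eq ?_))
  · have hfin : {f : Fin m → ℤ[X] | (∀ i, f i ∈ S) ∧ ¬ ∀ g' p' a' : ℕ, p'.Prime → 0 < a' →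
        p ^ a = p' ^ a' → 10 ≤ g' → (∀ i, f i ∈ weilPolys (p ^ a) g') →
        (∀ i, Three p' a' g' (f i)) → BeilinsonBlochFormula (p ^ a) f}.Finite := by
      refine Set.Finite.subset (Set.Finite.pi' fun _ : Fin m => hSfin) ?_
      rintro f ⟨h4, -⟩
      exact h4
    have hsub : {f : Fin m → ℤ[X] | (∀ i, f i ∈ S) ∧ ¬ BeilinsonBlochFormula (p ^ a) f} ⊆
        {f : Fin m → ℤ[X] | (∀ i, f i ∈ S) ∧ ¬ ∀ g' p' a' : ℕ, p'.Prime → 0 < a' →
        p ^ a = p' ^ a' → 10 ≤ g' → (∀ i, f i ∈ weilPolys (p ^ a) g') →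
        (∀ i, Three p' a' g' (f i)) → BeilinsonBlochFormula (p ^ a) f} := by
      rintro f ⟨h4, h5⟩
      exact ⟨h4, fun h6 => h5 (h6 g p a hp ha rfl hg10 (fun i => (hS (h4 i)).1)
        (fun i => hthree _ (h4 i)))⟩
    exact_mod_cast Set.ncard_le_ncard hsub hfin
  · have e : μ * (1 - 1 / 2) / 2 - ε = μ / 4 - ε := by ring
    rw [e]

end Pool.Agent.J4H9.BF
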