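import Mathlib
import Pool.Agent.J4H9.BF.MainTop

/-!
# Tate classes on the products with all curves
-/

set_option autoImplicit false
set_option linter.unusedSectionVars false

namespace Pool.Agent.J4H9.BF

open Polynomial Module Pool.Agent.H925R2 Pool.Agent.H485R3 Pool.Agent.W484.BB Pool.Agent.W521.Frob
  Pool.Agent.W521.Criterion Pool.Agent.W521.Descent Pool.Agent.W521.Count Pool.Agent.W521.Bad
  Pool.Agent.W521.Density ExteriorAlgebra Pool.Agent.H204R3.CM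
  Pool.Agent.H868R3.TwoOdd Pool.Agent.H194R3.Weil Pool.Agent.W484.AA
  Pool.Agent.J4H9.Alg Pool.Agent.J4H9.NGauss Pool.Agent.J4H9.NStm Pool.Agent.J4H9.NAll
  TensorProduct

/-- Every class in `⋀ ^ (2 k + 1) V ⊗ W`, that is, in `H ^ (2 k + 1) (A) ⊗ H ^ 1 (C)`, on which a
power of the Frobenius of the field with `Q` elements acts as a power of `Q ^ (k + 1)` is a linear
combination of products of `k` divisor classes on `A` and a correspondence (a Tate class in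
`V ⊗ W`). -/
def CurveFormula {V : Type} [AddCommGroup V] [Module ℂ V] {W : Type} [AddCommGroup W] [Module ℂ W]
    (Q : ℂ) (F : V →ₗ[ℂ] V) (G : W →ₗ[ℂ] W) : Prop :=
  ∀ k N : ℕ, 0 < N → ∀ u : (⋀[ℂ]^(2 * k + 1) V) ⊗[ℂ] W,
    TensorProduct.map (exteriorPower.map (2 * k + 1) F ^ N) (G ^ N) u = (Q ^ (k + 1)) ^ N • u →
      incl V W (2 * k + 1) u ∈ prodSpan₂ F G Q k

/-- The formula for the Tate classes on the products `A × C`, for all products `A` of powers of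
abelian varieties with characteristic polynomials of Frobenius `f i`, over all extensions of the
field with `q` elements, and for **all** smooth projective curves `C`. -/
def TateForCurves {I : Type} (q : ℕ) (f : I → ℤ[X]) : Prop :=
  ∀ (V : Type) [AddCommGroup V] [Module ℂ V] [FiniteDimensional ℂ V] (F : V →ₗ[ℂ] V),
    Submodule.span ℂ {v : V | ∃ i, ∃ z : ℂ, aeval z (f i) = 0 ∧ F v = z • v} = ⊤ →
    ∀ s : ℕ, 0 < s →
    ∀ (W : Type) [AddCommGroup W] [Module ℂ W] [FiniteDimensional ℂ W] (G : W →ₗ[ℂ] W),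
    WeilEigen ((q : ℝ) ^ s) G → CurveFormula ((q : ℂ) ^ s) (F ^ s) G

/-- `TateForCurves`, `TateForSmall`, and the irreducibility of the members of the family. -/
def TateCurvesSmall {m : ℕ} (q b : ℕ) (f : Fin m → ℤ[X]) : Prop :=
  TateForCurves q f ∧ TateForSmall q b f ∧ ∀ i, Irreducible ((f i).map (Int.castRingHom ℚ))

theorem coe_pow_map {V : Type*} [AddCommGroup V] [Module ℂ V] (F : V →ₗ[ℂ] V) (n N : ℕ)
    (u : ⋀[ℂ]^n V) : (((exteriorPower.map n F ^ N) u : ⋀[ℂ]^n V) : ExteriorAlgebra ℂ V) =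
      ExteriorAlgebra.map (F ^ N) (u : ExteriorAlgebra ℂ V) := by
  induction N generalizing u with
  | zero =>
    rw [pow_zero, pow_zero, Module.End.one_apply]
    have h1 : ExteriorAlgebra.map (1 : V →ₗ[ℂ] V) = AlgHom.id ℂ (ExteriorAlgebra ℂ V) :=
      ExteriorAlgebra.map_id
    rw [h1]
    rfl
  | succ N ih =>
    rw [pow_succ, Module.End.mul_apply, ih, Pool.Agent.W484.BB.coe_map, pow_succ]
    have h1 := ExteriorAlgebra.map_comp_map (R := ℂ) F (F ^ N)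
    have h2 := DFunLike.congr_fun h1 (u : ExteriorAlgebra ℂ V)
    exact h2

theorem curves_of_odd {q : ℕ} (hqpp : IsPrimePow q) {I : Type} (f : I → ℤ[X])
    (hodd : OddRelF q f) : TateForCurves q f := by
  classical
  intro V _ _ _ F hF s hs W _ _ _ G hG k N hN u hu
  have hq0 : q ≠ 0 := hqpp.pos.ne'
  let X := {z : ℂ // ∃ i, aeval z (f i) = 0}
  let val : X → ℂ := fun z => (z : ℂ) ^ s
  have hspan : Submodule.span ℂ {v : V | ∃ y : X, (F ^ s) v = val y • v} = ⊤ := by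
    rw [eq_top_iff, ← hF]
    refine Submodule.span_mono ?_
    rintro v ⟨i, z, hz, hv⟩
    exact ⟨⟨z, i, hz⟩, pow_apply_eigen F v z hv s⟩
  have hQ : (q : ℂ) ^ s ≠ 0 := pow_ne_zero _ (by exact_mod_cast hq0)
  obtain ⟨r, b, c, hc, hb⟩ := Pool.Agent.W484.BB.exists_eigenbasis G
    {ρ : ℂ | IsIntegral ℤ ρ ∧ ‖ρ‖ ^ 2 = (q : ℝ) ^ s} hG
  obtain ⟨x, hx, h1⟩ := components (exteriorPower.map (2 * k + 1) (F ^ s) ^ N) (G ^ N) b
    (fun j => c j ^ N) (fun j => pow_apply_eigen G _ _ (hb j) N) _ u hu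
  rw [hx, map_sum]
  refine Submodule.sum_mem _ fun j _ => ?_
  have h5 : incl V W (2 * k + 1) (x j ⊗ₜ b j) = (x j : ExteriorAlgebra ℂ V) ⊗ₜ b j := by
    rw [incl, TensorProduct.map_tmul]
    rfl
  rw [h5]
  obtain ⟨hρ, hρn⟩ := hc j
  have hρ0 : c j ≠ 0 := by
    intro h0
    rw [h0, norm_zero] at hρn
    norm_num at hρn
    have : (0 : ℝ) < (q : ℝ) ^ s := by
      have : (0 : ℝ) < q := by exact_mod_cast Nat.pos_of_ne_zero hq0
      positivity
    linarith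
  refine tmul_mem_prodSpan₂ (F ^ s) G ((q : ℂ) ^ s) (c j) k (b j) (hb j) _ ?_
  have hpair : ∀ k N : ℕ, 0 < N → ∀ ys : List X, ys.length = 2 * k + 3 →
      ((ys.map val).prod * c j) ^ N = (((q : ℂ) ^ s) ^ (k + 2)) ^ N →
        ¬ ys.Pairwise (fun y y' => ¬ Pool.Agent.W484.BB.Good ((q : ℂ) ^ s) (val y) (val y')) := by
    intro k N hN ys hlen hrel hpw
    refine hodd s hs (c j) hρ hρn k N hN
      (fun l => ((ys.get (Fin.cast hlen.symm l) : X) : ℂ))
      (fun l => (ys.get (Fin.cast hlen.symm l)).2) ?_ ?_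
    · rw [← hrel]
      congr 2
      have h6 : ∏ l : Fin (2 * k + 3), ((ys.get (Fin.cast hlen.symm l) : X) : ℂ) =
          (ys.map (fun y : X => (y : ℂ))).prod := by
        have h61 : ∏ l : Fin (2 * k + 3), ((ys.get (Fin.cast hlen.symm l) : X) : ℂ) =
            ∏ l : Fin ys.length, ((ys.get l : X) : ℂ) :=
          Fintype.prod_equiv (finCongr hlen.symm) _ _ fun l => rfl
        rw [h61, ← List.prod_ofFn]
        congr 1
        apply List.ext_getElem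
        · simp
        · intro i h1 h2
          simp
      rw [h6]
      have h7 : ∀ ys : List X, (ys.map (fun y : X => (y : ℂ))).prod ^ s = (ys.map val).prod := by
        intro ys
        induction ys with
        | nil => simp
        | cons y ys ih =>
          rw [List.map_cons, List.prod_cons, mul_pow, ih, List.map_cons, List.prod_cons]
      exact h7 ys
    · have hbad : ∀ k' l' : Fin ys.length, k' < l' →
          ((ys.get k' : X) : ℂ) * ((ys.get l' : X) : ℂ) ≠ q := by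
        intro k' l' hkl h8
        refine (List.pairwise_iff_get.1 hpw) k' l' hkl ⟨1, one_pos, ?_⟩
        rw [pow_one, pow_one]
        change ((ys.get k' : X) : ℂ) ^ s * ((ys.get l' : X) : ℂ) ^ s = _
        rw [← mul_pow, h8]
      intro k' l' hkl
      rcases lt_or_gt_of_ne hkl with h | h
      · exact hbad _ _ h
      · intro h8
        rw [mul_comm] at h8
        exact hbad _ _ h h8
  refine mem_of_lists_sub (F ^ s) val hspan (2 * k + 1) N
    ((((q : ℂ) ^ s) ^ (k + 1)) ^ N / c j ^ N) _ ?_ _ (x j).2 ?_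
  · intro L hlen hL hLc
    refine list_mem_prodSpan' (F ^ s) val ((q : ℂ) ^ s) (c j) hQ hpair k N hN L hlen hL ?_
    rw [mul_pow, hLc, div_mul_cancel₀ _ (pow_ne_zero _ hρ0)]
  · have h6 := congrArg (fun z : ⋀[ℂ]^(2 * k + 1) V => (z : ExteriorAlgebra ℂ V)) (h1 j)
    simp only [Submodule.coe_smul, coe_pow_map] at h6
    rw [div_eq_inv_mul, mul_smul, ← h6, smul_smul, inv_mul_cancel₀ (pow_ne_zero _ hρ0), one_smul]

theorem odd_of_fam (t_JOR : S_JOR) (t_TRI : S_TRI) (t_N3 : S_N3) (t_CMT : S_CMT) (t_DCN : S_DCN)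
    (t_K3 : S_K3) (t_AVG : S_AVG) (t_TOP : S_TOP) {q g' b m : ℕ}
    {f : Fin m → ℤ[X]} (hg3 : 3 ≤ g') (hf : FamOK5 q g' b f) {g p a : ℕ} (hp : p.Prime)
    (hqp : q = p ^ a) (hg : 10 ≤ g)
    (hw : ∀ i, f i ∈ weilPolys q g) (hthree : ∀ i, Three p a g (f i)) : OddRelF q f := by
  have hpF : Fact p.Prime := ⟨hp⟩
  have hq0 : 0 < q := by rw [hqp]; exact Nat.pow_pos hp.pos
  obtain ⟨r, h, hr, hr2, hgr, -, hrg, hmon, hgood, hnorm, rfl⟩ := hf
  rcases isEmpty_or_nonempty (Fin m) with hI | hI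
  · intro s hs ρ hρ hρn m' N hN z hz hrel hno
    obtain ⟨i, -⟩ := hz ⟨0, by omega⟩
    exact hI.elim i
  · obtain ⟨i₀⟩ := hI
    have hgg : g' = g := by
      have h1 := (hw i₀).2.1
      rw [weil_natDegree q (hmon i₀).1, (hmon i₀).2] at h1
      omega
    subst hgg
    rcases hrg with hrg | hrg
    · exact hrg.elim i₀
    · exact odd_rel_top t_JOR t_TRI t_N3 t_CMT t_DCN t_K3 t_AVG t_TOP p a hqp
        (fun i => (hmon i).1) (fun i => (hmon i).2) hr hr2 hgr hrg hg hgood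
        (fun i => NIrr.irreducible_weil hq0 (hmon i).1 (hmon i).2 hg3 (hgood.1 i) (hnorm i))
        hnorm hthree

theorem small_of_fam {m q g b : ℕ} (hq : 0 < q) (hg : 3 ≤ g) {f : Fin m → ℤ[X]}
    (hf : FamOK5 q g b f) :
    TateForSmall q b f ∧ ∀ i, Irreducible ((f i).map (Int.castRingHom ℚ)) := by
  obtain ⟨r, h, hr, hr2, hgr, hbr, -, hmon, hgood, hnorm, rfl⟩ := hf
  exact ⟨Pool.Agent.J4H9.Alg.tate_of_good (r := r) (g := g) hq.ne' (fun i => (hmon i).1)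
    (fun i => (hmon i).2.le) hr hr2 hgr hbr hgood hnorm,
    fun i => NIrr.irreducible_weil hq (hmon i).1 (hmon i).2 hg (hgood.1 i) (hnorm i)⟩

theorem main_crv (t_JOR : S_JOR) (t_TRI : S_TRI) (t_N3 : S_N3) (t_CMT : S_CMT) (t_DCN : S_DCN)
    (t_K3 : S_K3) (t_AVG : S_AVG) (t_TOP : S_TOP) {μ ε : ℝ}
    (hμ : 0 < μ) (hμ1 : μ ≤ 1 / 2) (hε : 0 < ε) (hε1 : ε < μ / 4) :
    ∃ g₀ : ℕ, ∀ g : ℕ, g₀ ≤ g → ∀ p a : ℕ, p.Prime → 0 < a → ∀ lam : ℕ → ℝ, Slopes lam →
      ∑ i ∈ Finset.range g, lam i ≤ (1 / 2 - μ) * g →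
      ∀ E : Finset ℕ, (∀ j ∈ E, 0 < j ∧ j ≤ g ∧
        ∃ n : ℕ, (a : ℝ) * ∑ i ∈ Finset.range j, lam i = n) →
      ((newtonAbove p a lam g).Finite ∧
        (64 ≤ ((p ^ a : ℕ) : ℝ) ^ (μ / 2) → 0 < (newtonThrough p a lam g E).ncard) ∧
        ((∀ j, 0 < j → j < g → lam (j - 1) < lam j → j ∈ E) → g ∈ E →
          lam 0 + lam 1 + lam 2 < 1 → ∀ f ∈ newtonThrough p a lam g E, Three p a g f)) ∧
      ∀ (S : Set ℤ[X]) (D : ℝ), S ⊆ newtonAbove p a lam g → (∀ f ∈ S, Three p a g f) → 1 ≤ D →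
        ((newtonThrough p a lam g E).ncard : ℝ) ≤ D * S.ncard → ∀ m : ℕ,
        ({f : Fin m → ℤ[X] | (∀ i, f i ∈ S) ∧ ¬ TateCurvesSmall (p ^ a) (g / 2) f}.ncard : ℝ) ≤
          (m : ℝ) ^ 2 * D * 2 ^ E.card * 8 ^ g *
            ((p ^ a : ℕ) : ℝ) ^ (-((μ / 4 - ε) * g)) * (S.ncard : ℝ) ^ m := by
  obtain ⟨g₀, h⟩ := main_pred5 (κ := 1 / 2) le_rfl (by norm_num) hμ hμ1 hε
    (by linarith : ε < μ * (1 - 1 / 2) / 2) (fun q b m f =>
      (TateForSmall q b f ∧ ∀ i, Irreducible ((f i).map (Int.castRingHom ℚ))) ∧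
      ∀ g p a : ℕ, p.Prime → 0 < a → q = p ^ a → 10 ≤ g → (∀ i, f i ∈ weilPolys q g) →
      (∀ i, Three p a g (f i)) → TateForCurves q f)
    (fun q g' b m f hq hg3 hf => ⟨small_of_fam hq hg3 hf, fun g p a hp ha hqp hg hw hthree =>
      curves_of_odd ((isPrimePow_nat_iff _).2 ⟨p, a, hp, ha, hqp.symm⟩) f
        (odd_of_fam t_JOR t_TRI t_N3 t_CMT t_DCN t_K3 t_AVG t_TOP hg3 hf hp hqp hg hw hthree)⟩)
  refine ⟨max g₀ 10, fun g hg p a hp ha lam hs hht E hE => ?_⟩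
  have hg0 : g₀ ≤ g := le_trans (le_max_left _ _) hg
  have hg10 : 10 ≤ g := le_trans (le_max_right _ _) hg
  obtain ⟨⟨h1, h2⟩, h3⟩ := h g hg0 p a hp ha lam hs hht E hE
  refine ⟨⟨h1, h2, fun hbr hgE h4 f hf => three_of_through hp ha (by omega) hs hE hbr hgE h4 hf⟩,
    ?_⟩
  intro S D hS hthree hD hDS m
  have hSfin : S.Finite := h1.subset hS
  have hfl : ⌊(1 / 2 : ℝ) * g⌋₊ = g / 2 := by
    have h4 := Nat.floor_div_eq_div (K := ℝ) g 2
    rw [← h4]
    congr 1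
    push_cast
    ring
  refine le_trans ?_ (le_trans (h3 S D hS hD hDS m) (le_of_eq ?_))
  · refine Nat.cast_le.2 (Set.ncard_le_ncard ?_ (Set.Finite.subset
      (Set.Finite.pi' fun _ : Fin m => hSfin) fun f hf => hf.1))
    rintro f ⟨h4, h5⟩
    refine ⟨h4, fun h6 => h5 ⟨h6.2 g p a hp ha rfl hg10 (fun i => (hS (h4 i)).1)
      (fun i => hthree _ (h4 i)), ?_, h6.1.2⟩⟩
    rw [← hfl]
    exact h6.1.1
  · have e : μ * (1 - 1 / 2) / 2 - ε = μ / 4 - ε := by ring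
    rw [e]

end Pool.Agent.J4H9.BF
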